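import Pool.Agent.H47.PT.Local4

/-!
# The discharging function
-/

namespace Pool.Agent.H47.PT

open Classical

variable {V : Type} {G : SimpleGraph V}

/-- face relation of a permutation of the darts -/
def Nx (φ : Equiv.Perm G.Dart) (a b c : V) : Prop :=
  ∃ (h : G.Adj a b) (h' : G.Adj b c), φ ⟨(a, b), h⟩ = ⟨(b, c), h'⟩

theorem rs_of (σ φ : Equiv.Perm G.Dart) (h1 : ∀ d, (σ d).fst = d.fst)
    (h2 : ∀ d d' : G.Dart, d.fst = d'.fst → ∃ n : ℕ, (σ ^ n) d = d')
    (h3 : ∀ d, φ d = σ d.symm) : RS G (Nx φ) := by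
  have key : ∀ {a b c : V} (h : G.Adj a b) (h' : G.Adj b c), φ ⟨(a, b), h⟩ = ⟨(b, c), h'⟩ ↔
      σ ⟨(b, a), h.symm⟩ = ⟨(b, c), h'⟩ := by
    intro a b c h h'
    rw [h3]; rfl
  have fstσ : ∀ (b x : V) (h : G.Adj b x), ∃ y, ∃ h' : G.Adj b y, σ ⟨(b, x), h⟩ = ⟨(b, y), h'⟩ := by
    intro b x h
    have := h1 ⟨(b, x), h⟩
    generalize σ ⟨(b, x), h⟩ = d at this
    obtain ⟨⟨p, q⟩, hpq⟩ := d
    simp only at this
    subst this
    exact ⟨q, hpq, rfl⟩
  have fstσ' : ∀ (b x : V) (h : G.Adj b x), ∃ y, ∃ h' : G.Adj b y, σ ⟨(b, y), h'⟩ = ⟨(b, x), h⟩ := by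
    intro b x h
    have := h1 (σ.symm ⟨(b, x), h⟩)
    rw [Equiv.apply_symm_apply] at this
    generalize hd : σ.symm ⟨(b, x), h⟩ = d at this
    obtain ⟨⟨p, q⟩, hpq⟩ := d
    simp only at this
    subst this
    exact ⟨q, hpq, by rw [← hd, Equiv.apply_symm_apply]⟩
  refine ⟨fun ⟨h, _, _⟩ => h, fun ⟨_, h, _⟩ => h, ?_, ?_, ?_, ?_, ?_, ?_⟩
  · intro a b h
    obtain ⟨y, h', e⟩ := fstσ b a h.symm
    exact ⟨y, h, h', (key _ _).2 e⟩
  · intro b c h
    obtain ⟨y, h', e⟩ := fstσ' b c h
    exact ⟨y, h'.symm, h, (key _ _).2 e⟩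
  · rintro a b c c' ⟨h, h', e⟩ ⟨k, k', e'⟩
    rw [e] at e'
    simpa using e'
  · rintro a a' b c ⟨h, h', e⟩ ⟨k, k', e'⟩
    rw [← e'] at e
    have := φ.injective e
    simpa using this
  · intro b S hS x hx hbx y hby
    obtain ⟨n, hn⟩ := h2 ⟨(b, x), hbx⟩ ⟨(b, y), hby⟩ rfl
    have : ∀ n : ℕ, ∀ z (hz : G.Adj b z), (σ ^ n) ⟨(b, x), hbx⟩ = ⟨(b, z), hz⟩ → z ∈ S := by
      intro n
      induction n with
      | zero =>
        intro z hz e
        simp only [pow_zero, Equiv.Perm.coe_one, id_eq, SimpleGraph.Dart.mk.injEq, Prod.mk.injEq,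
          true_and] at e
        exact e ▸ hx
      | succ n ih =>
        intro z hz e
        rw [pow_succ', Equiv.Perm.mul_apply] at e
        have : ((σ ^ n) ⟨(b, x), hbx⟩).fst = b := by
          have hh := h1 ((σ ^ n) ⟨(b, x), hbx⟩)
          rw [e] at hh
          exact hh.symm
        generalize hd : (σ ^ n) ⟨(b, x), hbx⟩ = d at this e
        obtain ⟨⟨p, q⟩, hpq⟩ := d
        simp only at this
        subst this
        exact hS q (ih q hpq hd) z ⟨hpq.symm, hz, (key hpq.symm hz).2 e⟩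
    exact this n y hby hn
  · intro b S hS x hx hbx y hby
    obtain ⟨n, hn⟩ := h2 ⟨(b, y), hby⟩ ⟨(b, x), hbx⟩ rfl
    have : ∀ n : ℕ, ∀ z (hz : G.Adj b z), (σ ^ n) ⟨(b, z), hz⟩ = ⟨(b, x), hbx⟩ → z ∈ S := by
      intro n
      induction n with
      | zero =>
        intro z hz e
        simp only [pow_zero, Equiv.Perm.coe_one, id_eq, SimpleGraph.Dart.mk.injEq, Prod.mk.injEq,
          true_and] at e
        exact e ▸ hx
      | succ n ih =>
        intro z hz e
        rw [pow_succ, Equiv.Perm.mul_apply] at e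
        obtain ⟨q, hq, e'⟩ := fstσ b z hz
        rw [e'] at e
        exact hS q (ih q hq e) z ⟨hz.symm, hq, (key hz.symm hq).2 e'⟩
    exact this n y hby hn

section
variable (φ : Equiv.Perm G.Dart)

/-- the face of the dart is a triangle -/
def T (d : G.Dart) : Prop := φ (φ (φ d)) = d

theorem T.next {φ : Equiv.Perm G.Dart} {d : G.Dart} (h : T φ d) : T φ (φ d) := by
  unfold T at *; rw [h]

theorem T.of_next {φ : Equiv.Perm G.Dart} {d : G.Dart} (h : T φ (φ d)) : T φ d := by
  unfold T at *; exact φ.injective h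

theorem T_next_iff (φ : Equiv.Perm G.Dart) (d : G.Dart) : T φ (φ d) ↔ T φ d :=
  ⟨T.of_next, T.next⟩

/-- 1 if the face on the other side is a triangle -/
noncomputable def ind (d : G.Dart) : ℕ := if T φ d.symm then 1 else 0

/-- number of triangular neighbours of the triangle of `d` -/
noncomputable def ii (d : G.Dart) : ℕ := ind φ d + ind φ (φ d) + ind φ (φ (φ d))

noncomputable def j3 (d : G.Dart) : ℕ := if T φ d.symm ∧ ii φ d.symm = 3 then 1 else 0

noncomputable def j2 (d : G.Dart) : ℕ := if T φ d.symm ∧ ii φ d.symm = 2 then 1 else 0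

noncomputable def n3 (d : G.Dart) : ℕ := j3 φ d + j3 φ (φ d) + j3 φ (φ (φ d))

noncomputable def n2 (d : G.Dart) : ℕ := j2 φ d + j2 φ (φ d) + j2 φ (φ (φ d))

/-- potential of a triangular face -/
noncomputable def H (d : G.Dart) : ℚ :=
  if ii φ d = 3 then (if n3 φ d = 0 then 8 else 16)
  else if ii φ d = 2 then (if n3 φ d = 2 then 8 else 0)
  else if ii φ d = 1 then (if n2 φ d = 1 then -2 else 0) else 0

noncomputable def sf (d : G.Dart) : ℚ := if T φ d.symm then H φ d - H φ d.symm else 0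

/-- flow leaving the triangle of `d` across `d` -/
noncomputable def g (d : G.Dart) : ℚ :=
  if T φ d.symm then H φ d - H φ d.symm
  else (24 - (sf φ d + sf φ (φ d) + sf φ (φ (φ d)))) / (3 - ii φ d)

end

variable {φ : Equiv.Perm G.Dart}

theorem ii_next {d : G.Dart} (h : T φ d) : ii φ (φ d) = ii φ d := by
  unfold ii; rw [h]; ring

theorem n3_next {d : G.Dart} (h : T φ d) : n3 φ (φ d) = n3 φ d := by
  unfold n3; rw [h]; ring

theorem n2_next {d : G.Dart} (h : T φ d) : n2 φ (φ d) = n2 φ d := by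
  unfold n2; rw [h]; ring

theorem H_next {d : G.Dart} (h : T φ d) : H φ (φ d) = H φ d := by
  unfold H; rw [ii_next h, n3_next h, n2_next h]

theorem ind_le (d : G.Dart) : ind φ d ≤ 1 := by unfold ind; split_ifs <;> omega

theorem ii_le (d : G.Dart) : ii φ d ≤ 3 := by
  have := ind_le (φ := φ) d
  have := ind_le (φ := φ) (φ d)
  have := ind_le (φ := φ) (φ (φ d))
  unfold ii; omega

theorem j3_le (d : G.Dart) : j3 φ d ≤ ind φ d := by
  unfold j3 ind
  split_ifs with h1 h2 <;> first | omega | (exact absurd h1.1 h2)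

theorem j2_le (d : G.Dart) : j2 φ d ≤ ind φ d := by
  unfold j2 ind
  split_ifs with h1 h2 <;> first | omega | (exact absurd h1.1 h2)

theorem H_le (d : G.Dart) : H φ d ≤ 16 := by
  unfold H; split_ifs <;> norm_num

theorem H_ge (d : G.Dart) : -2 ≤ H φ d := by
  unfold H; split_ifs <;> norm_num

theorem H_le8 {d : G.Dart} (h : ii φ d ≠ 3) : H φ d ≤ 8 := by
  unfold H; rw [if_neg h]; split_ifs <;> norm_num

theorem H_le0 {d : G.Dart} (h : ii φ d ≠ 3) (h' : ¬ (ii φ d = 2 ∧ n3 φ d = 2)) : H φ d ≤ 0 := by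
  unfold H; rw [if_neg h]
  by_cases h1 : ii φ d = 2
  · rw [if_pos h1, if_neg (fun h2 => h' ⟨h1, h2⟩)]
  · rw [if_neg h1]; split_ifs <;> norm_num

theorem ind_eq_one {d : G.Dart} (h : T φ d.symm) : ind φ d = 1 := by
  unfold ind; rw [if_pos h]

theorem ind_eq_zero {d : G.Dart} (h : ¬ T φ d.symm) : ind φ d = 0 := by
  unfold ind; rw [if_neg h]

theorem j3_eq_zero {d : G.Dart} (h : ii φ d.symm ≠ 3) : j3 φ d = 0 := by
  unfold j3; rw [if_neg (fun h' => h h'.2)]

theorem j3_eq_one {d : G.Dart} (h' : T φ d.symm) (h : ii φ d.symm = 3) : j3 φ d = 1 := by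
  unfold j3; rw [if_pos ⟨h', h⟩]

/-- if a triangle has at most two triangular neighbours, and one of them has at most two triangular
neighbours, then its potential is `≤ 0` -/
theorem H_le0' {d e : G.Dart} (hd : ii φ d ≠ 3) (he : e = d ∨ e = φ d ∨ e = φ (φ d))
    (h1 : T φ e.symm) (h2 : ii φ e.symm ≠ 3) : H φ d ≤ 0 := by
  apply H_le0 hd
  rintro ⟨h3, h4⟩
  have a0 := j3_le (φ := φ) d
  have a1 := j3_le (φ := φ) (φ d)
  have a2 := j3_le (φ := φ) (φ (φ d))
  have b := ind_eq_one h1
  have c := j3_eq_zero h2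
  unfold ii at h3
  unfold n3 at h4
  rcases he with rfl | rfl | rfl <;> omega

/-- antisymmetry of the flow -/
theorem g_antisymm {d : G.Dart} (h1 : T φ d) (h2 : T φ d.symm) : g φ d = - g φ d.symm := by
  unfold g
  rw [if_pos h2, if_pos (by rwa [SimpleGraph.Dart.symm_symm]), SimpleGraph.Dart.symm_symm]
  ring

theorem sf_of {d : G.Dart} (h : T φ d.symm) : sf φ d = H φ d - H φ d.symm := by
  unfold sf; rw [if_pos h]

theorem sf_of_not {d : G.Dart} (h : ¬ T φ d.symm) : sf φ d = 0 := by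
  unfold sf; rw [if_neg h]

/-- outgoing flow of a triangle with at most one triangular neighbour -/
theorem g_le20 {d : G.Dart} (hT : T φ d) (h : ¬ T φ d.symm) (hi : ii φ d ≤ 1) : g φ d ≤ 20 := by
  have e1 := H_next hT
  have e2 := H_next hT.next
  have i0 := ind_eq_zero h
  unfold g
  rw [if_neg h, sf_of_not h]
  by_cases h1 : T φ (φ d).symm <;> by_cases h2 : T φ (φ (φ d)).symm
  · exfalso
    have := ind_eq_one h1
    have := ind_eq_one h2
    unfold ii at hi; omega
  · have i1 := ind_eq_one h1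
    have i2 := ind_eq_zero h2
    have i3 : ii φ d = 1 := by unfold ii; omega
    rw [sf_of h1, sf_of_not h2, i3, e1]
    by_cases h3 : n2 φ d = 1
    · have h4 : j2 φ (φ d) = 1 := by
        have a0 := j2_le (φ := φ) d
        have a2 := j2_le (φ := φ) (φ (φ d))
        unfold n2 at h3; omega
      have h5 : ii φ (φ d).symm = 2 := by
        unfold j2 at h4
        by_contra hc
        rw [if_neg (fun h' => hc h'.2)] at h4
        omega
      have h6 := H_le8 (φ := φ) (d := (φ d).symm) (by omega)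
      have h7 := H_ge (φ := φ) d
      push_cast
      rw [div_le_iff₀ (by norm_num)]
      linarith
    · have h6 : H φ d = 0 := by
        unfold H; rw [i3]; simp [h3]
      have h7 := H_le (φ := φ) (φ d).symm
      push_cast
      rw [div_le_iff₀ (by norm_num)]
      linarith
  · have i1 := ind_eq_zero h1
    have i2 := ind_eq_one h2
    have i3 : ii φ d = 1 := by unfold ii; omega
    rw [sf_of h2, sf_of_not h1, i3, e2, e1]
    by_cases h3 : n2 φ d = 1
    · have h4 : j2 φ (φ (φ d)) = 1 := by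
        have a0 := j2_le (φ := φ) d
        have a2 := j2_le (φ := φ) (φ d)
        unfold n2 at h3; omega
      have h5 : ii φ (φ (φ d)).symm = 2 := by
        unfold j2 at h4
        by_contra hc
        rw [if_neg (fun h' => hc h'.2)] at h4
        omega
      have h6 := H_le8 (φ := φ) (d := (φ (φ d)).symm) (by omega)
      have h7 := H_ge (φ := φ) d
      push_cast
      rw [div_le_iff₀ (by norm_num)]
      linarith
    · have h6 : H φ d = 0 := by
        unfold H; rw [i3]; simp [h3]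
      have h7 := H_le (φ := φ) (φ (φ d)).symm
      push_cast
      rw [div_le_iff₀ (by norm_num)]
      linarith
  · have i1 := ind_eq_zero h1
    have i2 := ind_eq_zero h2
    have i3 : ii φ d = 0 := by unfold ii; omega
    rw [sf_of_not h1, sf_of_not h2, i3]
    norm_num

/-- outgoing flow of any triangle -/
theorem g_le40 {d : G.Dart} (hT : T φ d) (h : ¬ T φ d.symm) : g φ d ≤ 40 := by
  by_cases hi : ii φ d ≤ 1
  · exact (g_le20 hT h hi).trans (by norm_num)
  have e1 := H_next hT
  have e2 := H_next hT.next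
  have i0 := ind_eq_zero h
  have l1 := ind_le (φ := φ) (φ d)
  have l2 := ind_le (φ := φ) (φ (φ d))
  have i1 : ind φ (φ d) = 1 := by unfold ii at hi; omega
  have i2 : ind φ (φ (φ d)) = 1 := by unfold ii at hi; omega
  have i3 : ii φ d = 2 := by unfold ii; omega
  have h1 : T φ (φ d).symm := by
    by_contra hc; rw [ind_eq_zero hc] at i1; omega
  have h2 : T φ (φ (φ d)).symm := by
    by_contra hc; rw [ind_eq_zero hc] at i2; omega
  unfold g
  rw [if_neg h, sf_of_not h, sf_of h1, sf_of h2, i3, e2, e1]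
  have u1 := H_le (φ := φ) (φ d).symm
  have u2 := H_le (φ := φ) (φ (φ d)).symm
  by_cases h3 : n3 φ d = 2
  · have h6 : H φ d = 8 := by
      unfold H; rw [i3]; simp [h3]
    push_cast
    rw [div_le_iff₀ (by norm_num), h6]
    linarith
  · have h6 : H φ d = 0 := by
      unfold H; rw [i3]; simp [h3]
    have k1 : ii φ (φ d) ≠ 3 := by rw [ii_next hT]; omega
    have k2 : ii φ (φ (φ d)) ≠ 3 := by rw [ii_next hT.next, ii_next hT]; omega
    have h7 : ii φ (φ d).symm ≠ 3 ∨ ii φ (φ (φ d)).symm ≠ 3 := by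
      by_contra hcon
      push Not at hcon
      have a0 := j3_le (φ := φ) d
      have a1 := j3_eq_one h1 hcon.1
      have a2 := j3_eq_one h2 hcon.2
      unfold n3 at h3; omega
    rcases h7 with h7 | h7
    · have := H_le0' (φ := φ) (d := (φ d).symm) (e := (φ d).symm) h7 (Or.inl rfl)
        (by rw [SimpleGraph.Dart.symm_symm]; exact hT.next)
        (by rw [SimpleGraph.Dart.symm_symm]; exact k1)
      push_cast
      rw [div_le_iff₀ (by norm_num), h6]
      linarith
    · have := H_le0' (φ := φ) (d := (φ (φ d)).symm) (e := (φ (φ d)).symm) h7 (Or.inl rfl)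
        (by rw [SimpleGraph.Dart.symm_symm]; exact hT.next.next)
        (by rw [SimpleGraph.Dart.symm_symm]; exact k2)
      push_cast
      rw [div_le_iff₀ (by norm_num), h6]
      linarith

/-- outgoing flow when both triangular neighbours are leaves -/
theorem g_le22 {d : G.Dart} (hT : T φ d) (h : ¬ T φ d.symm)
    (h1 : T φ (φ d).symm) (h2 : T φ (φ (φ d)).symm) (l1 : ii φ (φ d).symm = 1)
    (l2 : ii φ (φ (φ d)).symm = 1) : g φ d ≤ 22 := by
  have e1 := H_next hT
  have e2 := H_next hT.next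
  have i0 := ind_eq_zero h
  have i1 := ind_eq_one h1
  have i2 := ind_eq_one h2
  have i3 : ii φ d = 2 := by unfold ii; omega
  have key : ∀ e : G.Dart, T φ e → ii φ e = 2 → T φ e.symm → ii φ e.symm = 1 →
      H φ e.symm = -2 := by
    intro e he hi hs hl
    have : j2 φ e.symm = 1 := by
      unfold j2
      rw [SimpleGraph.Dart.symm_symm, if_pos ⟨he, hi⟩]
    have a0 := j2_le (φ := φ) e.symm
    have a1 := j2_le (φ := φ) (φ e.symm)
    have a2 := j2_le (φ := φ) (φ (φ e.symm))
    have : n2 φ e.symm = 1 := by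
      unfold n2; unfold ii at hl; omega
    unfold H; rw [hl]; simp [this]
  have k1 : ii φ (φ d) = 2 := by rw [ii_next hT]; omega
  have k2 : ii φ (φ (φ d)) = 2 := by rw [ii_next hT.next, ii_next hT]; omega
  have k3 := key _ hT.next k1 h1 l1
  have k4 := key _ hT.next.next k2 h2 l2
  have k5 : 0 ≤ H φ d := by
    unfold H; rw [i3, if_neg (by norm_num), if_pos rfl]; split_ifs <;> norm_num
  unfold g
  rw [if_neg h, sf_of_not h, sf_of h1, sf_of h2, i3, e2, e1, k3, k4]
  push_cast
  rw [div_le_iff₀ (by norm_num)]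
  linarith

end Pool.Agent.H47.PT
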