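import Pool.Agent.H47.PT.Charge

/-!
# Balance of the discharging at triangles and at faces of length four
-/

namespace Pool.Agent.H47.PT

open Classical

variable {V : Type} {G : SimpleGraph V} {φ : Equiv.Perm G.Dart}

theorem nx_apply {a b c : V} (h : Nx φ a b c) (hab : G.Adj a b) (hbc : G.Adj b c) :
    φ ⟨(a, b), hab⟩ = ⟨(b, c), hbc⟩ := by
  obtain ⟨_, _, e⟩ := h
  exact e

theorem T_iff (hR : RS G (Nx φ)) {a b : V} (hab : G.Adj a b) :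
    T φ ⟨(a, b), hab⟩ ↔ TD (Nx φ) a b := by
  constructor
  · intro h
    obtain ⟨c, h1⟩ := hR.tot hab
    have hbc := hR.adjr h1
    obtain ⟨d, h2⟩ := hR.tot hbc
    have hcd := hR.adjr h2
    unfold T at h
    rw [nx_apply h1 hab hbc, nx_apply h2 hbc hcd] at h
    obtain ⟨e, h3⟩ := hR.tot hcd
    have h4 := nx_apply h3 hcd (hR.adjr h3)
    rw [h] at h4
    have e1 : a = d := by
      have := congrArg (fun x : G.Dart => x.fst) h4
      exact this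
    subst e1
    refine ⟨c, h1, h2, ⟨hcd, hab, h⟩⟩
  · rintro ⟨c, h1, h2, h3⟩
    unfold T
    rw [nx_apply h1 hab (hR.adjr h1), nx_apply h2 _ (hR.adjr h2), nx_apply h3 _ hab]

theorem ind_tri (hR : RS G (Nx φ)) {a b : V} (hab : G.Adj a b) :
    ind φ ⟨(a, b), hab⟩ = if TD (Nx φ) b a then 1 else 0 := by
  unfold ind
  have : T φ (SimpleGraph.Dart.symm ⟨(a, b), hab⟩) ↔ TD (Nx φ) b a := T_iff hR hab.symm
  simp only [this]

theorem ii_tri (hR : RS G (Nx φ)) {a b c : V} (hab : G.Adj a b) (t : Tri (Nx φ) a b c) :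
    ii φ ⟨(a, b), hab⟩ = (if TD (Nx φ) b a then 1 else 0) + (if TD (Nx φ) c b then 1 else 0)
      + (if TD (Nx φ) a c then 1 else 0) := by
  unfold ii
  rw [nx_apply t.1 hab (hR.adjr t.1), nx_apply t.2.1 _ (hR.adjr t.2.1), ind_tri hR, ind_tri hR,
    ind_tri hR]

theorem ii3 (hR : RS G (Nx φ)) {a b c : V} (hab : G.Adj a b) (t : Tri (Nx φ) a b c) :
    ii φ ⟨(a, b), hab⟩ = 3 ↔ TD (Nx φ) b a ∧ TD (Nx φ) c b ∧ TD (Nx φ) a c := by
  rw [ii_tri hR hab t]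
  split_ifs with h1 h2 h3 <;> simp [*]

theorem balA [DecidableEq V] (hR : RS G (Nx φ)) (hD : DomFree G) {a b c x y z : V} (hB : Big G a)
    (t : Tri (Nx φ) a b c) (s1 : Tri (Nx φ) b a x) (s2 : Tri (Nx φ) c b y)
    (s3 : Tri (Nx φ) a c z) (hba : G.Adj b a) (hcb : G.Adj c b) (hac : G.Adj a c)
    (h1 : ii φ ⟨(b, a), hba⟩ ≠ 3) (h2 : ii φ ⟨(c, b), hcb⟩ ≠ 3) (h3 : ii φ ⟨(a, c), hac⟩ ≠ 3) :
    H φ ⟨(b, a), hba⟩ ≤ 0 := by
  apply H_le0 h1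
  rintro ⟨h4, h5⟩
  have hax := hR.adjr s1.1
  have hxb := hR.adjr s1.2.1
  unfold ii at h4
  unfold n3 at h5
  rw [nx_apply s1.1 hba hax, nx_apply s1.2.1 hax hxb] at h4 h5
  have a0 := j3_le (φ := φ) ⟨(b, a), hba⟩
  have a1 := j3_le (φ := φ) ⟨(a, x), hax⟩
  have a2 := j3_le (φ := φ) ⟨(x, b), hxb⟩
  have i0 : ind φ ⟨(b, a), hba⟩ = 1 := by
    rw [ind_tri hR, if_pos ⟨c, t⟩]
  have b1 := ind_le (φ := φ) ⟨(a, x), hax⟩
  have b2 := ind_le (φ := φ) ⟨(x, b), hxb⟩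
  have : j3 φ ⟨(a, x), hax⟩ = 1 ∨ j3 φ ⟨(x, b), hxb⟩ = 1 := by omega
  rcases this with h6 | h6
  · have h7 : T φ (SimpleGraph.Dart.symm ⟨(a, x), hax⟩) ∧
        ii φ (SimpleGraph.Dart.symm ⟨(a, x), hax⟩) = 3 := by
      unfold j3 at h6
      by_contra hc
      rw [if_neg hc] at h6
      omega
    obtain ⟨h7, h8⟩ := h7
    have h7' : TD (Nx φ) x a := (T_iff hR hax.symm).1 h7
    obtain ⟨w, hw⟩ := h7'
    have h9 := (ii3 hR hax.symm hw).1 h8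
    have h10 := local1 hR hD hB t s1 s2 s3 hw h9.2.2
    exact h3 ((ii3 hR hac s3).2 ⟨⟨b, t.rot'⟩, h10.1, h10.2⟩)
  · have h7 : T φ (SimpleGraph.Dart.symm ⟨(x, b), hxb⟩) ∧
        ii φ (SimpleGraph.Dart.symm ⟨(x, b), hxb⟩) = 3 := by
      unfold j3 at h6
      by_contra hc
      rw [if_neg hc] at h6
      omega
    obtain ⟨h7, h8⟩ := h7
    have h7' : TD (Nx φ) b x := (T_iff hR hxb.symm).1 h7
    obtain ⟨v, hv⟩ := h7'
    have h9 := (ii3 hR hxb.symm hv).1 h8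
    have h10 := local1' hR hD (hB.adj hba.symm) t s1 s2 s3 hv h9.2.1
    exact h2 ((ii3 hR hcb s2).2 ⟨⟨a, t.rot⟩, h10.2, h10.1⟩)

theorem balB [DecidableEq V] (hR : RS G (Nx φ)) (hD : DomFree G) {a b c x y z : V} (hB : Big G a)
    (t : Tri (Nx φ) a b c) (s1 : Tri (Nx φ) b a x) (s2 : Tri (Nx φ) c b y)
    (s3 : Tri (Nx φ) a c z) (hba : G.Adj b a) (hcb : G.Adj c b) (hac : G.Adj a c)
    (h1 : ii φ ⟨(b, a), hba⟩ = 3) :
    H φ ⟨(b, a), hba⟩ + H φ ⟨(c, b), hcb⟩ + H φ ⟨(a, c), hac⟩ ≤ 24 := by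
  have h2 := (ii3 hR hba s1).1 h1
  obtain ⟨-, ⟨w, t1⟩, ⟨v, t2⟩⟩ := h2
  have hH := H_le (φ := φ) ⟨(b, a), hba⟩
  have hby := hR.adjr s2.1
  have hyc := hR.adjr s2.2.1
  have hcz := hR.adjr s3.1
  have hza := hR.adjr s3.2.1
  rcases local2 hR hD hB t s1 s2 s3 t1 t2 with ⟨h3, h4, q, hq, hq'⟩ | ⟨h3, h4, q, hq, hq'⟩
  · have i1 : ii φ ⟨(a, c), hac⟩ ≠ 3 := fun h => h3 ((ii3 hR hac s3).1 h).2.1
    have i2 : ii φ ⟨(c, b), hcb⟩ ≠ 3 := fun h => h4 ((ii3 hR hcb s2).1 h).2.2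
    have i3 : ii φ ⟨(y, b), hby.symm⟩ ≠ 3 := fun h => hq' ((ii3 hR hby.symm hq).1 h).2.2
    have k1 := H_le8 i1
    have k2 := H_le0' (φ := φ) (d := ⟨(c, b), hcb⟩) (e := ⟨(b, y), hby⟩) i2
      (Or.inr (Or.inl (nx_apply s2.1 hcb hby).symm)) ((T_iff hR hby.symm).2 ⟨q, hq⟩) i3
    linarith
  · have i1 : ii φ ⟨(a, c), hac⟩ ≠ 3 := fun h => h4 ((ii3 hR hac s3).1 h).2.1
    have i2 : ii φ ⟨(c, b), hcb⟩ ≠ 3 := fun h => h3 ((ii3 hR hcb s2).1 h).2.2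
    have i3 : ii φ ⟨(a, z), hza.symm⟩ ≠ 3 := fun h => hq' ((ii3 hR hza.symm hq).1 h).2.1
    have k1 := H_le8 i2
    have k2 := H_le0' (φ := φ) (d := ⟨(a, c), hac⟩) (e := ⟨(z, a), hza⟩) i1
      (Or.inr (Or.inr (by rw [nx_apply s3.1 hac hcz, nx_apply s3.2.1 hcz hza])))
      ((T_iff hR hza.symm).2 ⟨q, hq⟩) i3
    linarith

/-- balance at a triangle with three triangular neighbours -/
theorem bal3 [DecidableEq V] (hR : RS G (Nx φ)) (hD : DomFree G) {a b c : V} (hB : Big G a)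
    (t : Tri (Nx φ) a b c) (hab : G.Adj a b) (hba : G.Adj b a) (hcb : G.Adj c b) (hac : G.Adj a c)
    (hi : ii φ ⟨(a, b), hab⟩ = 3) :
    24 ≤ 3 * H φ ⟨(a, b), hab⟩ - H φ ⟨(b, a), hba⟩ - H φ ⟨(c, b), hcb⟩ - H φ ⟨(a, c), hac⟩ := by
  obtain ⟨⟨x, s1⟩, ⟨y, s2⟩, ⟨z, s3⟩⟩ := (ii3 hR hab t).1 hi
  have hBb := hB.adj hab
  have hBc := hB.adj hac
  have hbc := hcb.symm
  have hca := hac.symm
  by_cases h1 : ii φ ⟨(b, a), hba⟩ = 3 ∨ ii φ ⟨(c, b), hcb⟩ = 3 ∨ ii φ ⟨(a, c), hac⟩ = 3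
  · have h2 : H φ ⟨(b, a), hba⟩ + H φ ⟨(c, b), hcb⟩ + H φ ⟨(a, c), hac⟩ ≤ 24 := by
      rcases h1 with h1 | h1 | h1
      · exact balB hR hD hB t s1 s2 s3 hba hcb hac h1
      · have := balB hR hD hBb t.rot s2 s3 s1 hcb hac hba h1
        linarith
      · have := balB hR hD hBc t.rot' s3 s1 s2 hac hba hcb h1
        linarith
    have h3 : H φ ⟨(a, b), hab⟩ = 16 := by
      unfold H
      rw [if_pos hi, if_neg]
      intro h0
      unfold n3 at h0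
      rw [nx_apply t.1 hab hbc, nx_apply t.2.1 hbc hca] at h0
      rcases h1 with h1 | h1 | h1
      · have := j3_eq_one (φ := φ) (d := ⟨(a, b), hab⟩) ((T_iff hR hba).2 ⟨x, s1⟩) h1
        omega
      · have := j3_eq_one (φ := φ) (d := ⟨(b, c), hbc⟩) ((T_iff hR hcb).2 ⟨y, s2⟩) h1
        omega
      · have := j3_eq_one (φ := φ) (d := ⟨(c, a), hca⟩) ((T_iff hR hac).2 ⟨z, s3⟩) h1
        omega
    linarith
  · push Not at h1
    obtain ⟨h1, h2, h3⟩ := h1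
    have k1 := balA hR hD hB t s1 s2 s3 hba hcb hac h1 h2 h3
    have k2 := balA hR hD hBb t.rot s2 s3 s1 hcb hac hba h2 h3 h1
    have k3 := balA hR hD hBc t.rot' s3 s1 s2 hac hba hcb h3 h1 h2
    have h4 : H φ ⟨(a, b), hab⟩ = 8 := by
      unfold H
      rw [if_pos hi, if_pos]
      unfold n3
      rw [nx_apply t.1 hab hbc, nx_apply t.2.1 hbc hca]
      have e1 := j3_eq_zero (φ := φ) (d := ⟨(a, b), hab⟩) h1
      have e2 := j3_eq_zero (φ := φ) (d := ⟨(b, c), hbc⟩) h2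
      have e3 := j3_eq_zero (φ := φ) (d := ⟨(c, a), hca⟩) h3
      omega
    linarith

theorem g_pos {d : G.Dart} (h : T φ d.symm) : g φ d = H φ d - H φ d.symm := by
  unfold g; rw [if_pos h]

theorem bal3' [DecidableEq V] (hR : RS G (Nx φ)) (hD : DomFree G) {a b c : V} (hB : Big G a)
    (t : Tri (Nx φ) a b c) (hab : G.Adj a b) (hbc : G.Adj b c) (hca : G.Adj c a)
    (hi : ii φ ⟨(a, b), hab⟩ = 3) :
    24 ≤ g φ ⟨(a, b), hab⟩ + g φ ⟨(b, c), hbc⟩ + g φ ⟨(c, a), hca⟩ := by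
  have h1 := bal3 hR hD hB t hab hab.symm hbc.symm hca.symm hi
  obtain ⟨s1, s2, s3⟩ := (ii3 hR hab t).1 hi
  have hT : T φ ⟨(a, b), hab⟩ := (T_iff hR hab).2 ⟨c, t⟩
  have e1 := H_next hT
  have e2 := H_next hT.next
  rw [nx_apply t.1 hab hbc] at e1 e2
  rw [nx_apply t.2.1 hbc hca] at e2
  have h2 : g φ ⟨(a, b), hab⟩ = H φ ⟨(a, b), hab⟩ - H φ ⟨(b, a), hab.symm⟩ :=
    g_pos (d := ⟨(a, b), hab⟩) ((T_iff hR hab.symm).2 s1)
  have h3 : g φ ⟨(b, c), hbc⟩ = H φ ⟨(b, c), hbc⟩ - H φ ⟨(c, b), hbc.symm⟩ :=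
    g_pos (d := ⟨(b, c), hbc⟩) ((T_iff hR hbc.symm).2 s2)
  have h4 : g φ ⟨(c, a), hca⟩ = H φ ⟨(c, a), hca⟩ - H φ ⟨(a, c), hca.symm⟩ :=
    g_pos (d := ⟨(c, a), hca⟩) ((T_iff hR hca.symm).2 s3)
  rw [h2, h3, h4]
  linarith

/-- total flow out of a triangle is at least `24` -/
theorem bal [DecidableEq V] (hR : RS G (Nx φ)) (hD : DomFree G) (d : G.Dart) (hB : Big G d.fst)
    (hT : T φ d) : 24 ≤ g φ d + g φ (φ d) + g φ (φ (φ d)) := by
  have e1 := H_next hT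
  have e2 := H_next hT.next
  have e3 : φ (φ (φ d)) = d := hT
  have e4 := ii_next hT
  have e5 := ii_next hT.next
  by_cases hi : ii φ d = 3
  · obtain ⟨⟨a, b⟩, hab⟩ := d
    obtain ⟨c, t⟩ := (T_iff hR hab).1 hT
    have hbc := hR.adjr t.1
    have hca := hR.adjr t.2.1
    have h1 := bal3' hR hD hB t hab hbc hca hi
    have f1 := nx_apply t.1 hab hbc
    have f2 := nx_apply t.2.1 hbc hca
    simp only at f1 f2 h1 ⊢
    rw [f1, f2]
    exact h1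
  · have l0 := ind_le (φ := φ) d
    have l1 := ind_le (φ := φ) (φ d)
    have l2 := ind_le (φ := φ) (φ (φ d))
    have hii : ii φ d = ind φ d + ind φ (φ d) + ind φ (φ (φ d)) := rfl
    set S := sf φ d + sf φ (φ d) + sf φ (φ (φ d)) with hS
    have gen : ∀ e : G.Dart, ii φ e = ii φ d → sf φ e + sf φ (φ e) + sf φ (φ (φ e)) = S →
        g φ e = ind φ e * sf φ e + (1 - ind φ e) * ((24 - S) / (3 - ii φ d)) := by
      intro e h1 h2
      unfold g ind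
      by_cases h : T φ e.symm
      · rw [if_pos h, if_pos h, sf_of h]; push_cast; ring
      · rw [if_neg h, if_neg h, h1, h2]; push_cast; ring
    have gs : ∀ e : G.Dart, (ind φ e : ℚ) * sf φ e = sf φ e := by
      intro e
      by_cases h : T φ e.symm
      · rw [ind_eq_one h]; simp
      · rw [sf_of_not h]; simp
    have g0 := gen d rfl rfl
    have g1 := gen (φ d) e4 (by rw [e3]; rw [hS]; ring)
    have g2 := gen (φ (φ d)) (e5.trans e4) (by rw [e3]; rw [hS]; ring)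
    rw [g0, g1, g2, gs, gs, gs]
    have h3 : (3 - (ii φ d : ℚ)) ≠ 0 := by
      have : ii φ d < 3 := by have := ii_le (φ := φ) d; omega
      have : (ii φ d : ℚ) < 3 := by exact_mod_cast this
      linarith
    have h4 : (3 - (ii φ d : ℚ)) * ((24 - S) / (3 - ii φ d)) = 24 - S := by
      field_simp
    have h5 : (ii φ d : ℚ) = ind φ d + ind φ (φ d) + ind φ (φ (φ d)) := by
      rw [hii]; push_cast; ring
    have h6 : sf φ d + (1 - (ind φ d : ℚ)) * ((24 - S) / (3 - ii φ d)) +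
        (sf φ (φ d) + (1 - (ind φ (φ d) : ℚ)) * ((24 - S) / (3 - ii φ d))) +
        (sf φ (φ (φ d)) + (1 - (ind φ (φ (φ d)) : ℚ)) * ((24 - S) / (3 - ii φ d)))
        = S + (3 - (ii φ d : ℚ)) * ((24 - S) / (3 - ii φ d)) := by
      rw [hS, h5]; ring
    rw [h6, h4]
    linarith

end Pool.Agent.H47.PT
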