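import Pool.Agent.H47.PT.Charge2

/-!
# The capacity of a face of length four, and the total charge of a component
-/

namespace Pool.Agent.H47.PT

open Classical

variable {V : Type} {G : SimpleGraph V} {φ : Equiv.Perm G.Dart}

/-- charge received by a dart from the triangle on the other side -/
noncomputable def gg (φ : Equiv.Perm G.Dart) (e : G.Dart) : ℚ :=
  if T φ e.symm then g φ e.symm else 0

/-- a face `b → a → p → q → b` -/
def Quad (N : V → V → V → Prop) (b a p q : V) : Prop := N b a p ∧ N a p q ∧ N p q b ∧ N q b a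

theorem Quad.rot {N : V → V → V → Prop} {b a p q : V} (h : Quad N b a p q) : Quad N a p q b :=
  ⟨h.2.1, h.2.2.1, h.2.2.2, h.1⟩

theorem Quad.not_TD (hR : RS G (Nx φ)) {b a p q : V} (h : Quad (Nx φ) b a p q) :
    ¬ TD (Nx φ) b a := by
  rintro ⟨r, hr⟩
  have e1 := hR.fn hr.1 h.1
  subst e1
  have e2 := hR.fn hr.2.1 h.2.1
  subst e2
  exact (hR.adjr h.2.2.1).ne rfl

theorem gg_le40 {e : G.Dart} (h : ¬ T φ e) : gg φ e ≤ 40 := by
  unfold gg
  split_ifs with h1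
  · exact g_le40 h1 (by rwa [SimpleGraph.Dart.symm_symm])
  · norm_num

theorem gg_of_not (hR : RS G (Nx φ)) {a b : V} (hab : G.Adj a b) (h : ¬ TD (Nx φ) b a) :
    gg φ ⟨(a, b), hab⟩ = 0 := by
  unfold gg
  rw [if_neg]
  exact fun h' => h ((T_iff hR hab.symm).1 h')

/-- at most 20 if two sides of the triangle are not shared with triangles -/
theorem gg_le20 (hR : RS G (Nx φ)) {a b : V} (hab : G.Adj a b) (h : ¬ TD (Nx φ) a b)
    (h' : ∀ r, Tri (Nx φ) b a r → ¬ TD (Nx φ) r a ∨ ¬ TD (Nx φ) b r) :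
    gg φ ⟨(a, b), hab⟩ ≤ 20 := by
  by_cases h1 : TD (Nx φ) b a
  · obtain ⟨r, hr⟩ := h1
    have h2 : T φ ⟨(b, a), hab.symm⟩ := (T_iff hR hab.symm).2 ⟨r, hr⟩
    have h3 : gg φ ⟨(a, b), hab⟩ = g φ ⟨(b, a), hab.symm⟩ := by
      unfold gg
      exact if_pos h2
    rw [h3]
    apply g_le20 h2
    · exact fun h4 => h ((T_iff hR hab).1 h4)
    · rw [ii_tri hR hab.symm hr, if_neg h]
      rcases h' r hr with h5 | h5
      · rw [if_neg h5]; split_ifs <;> omega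
      · rw [if_neg h5]; split_ifs <;> omega
  · rw [gg_of_not hR hab h1]; norm_num

theorem quadC [DecidableEq V] (hR : RS G (Nx φ)) (hD : DomFree G) {b a p q : V} (hB : Big G a)
    (hQ : Quad (Nx φ) b a p q) (hba : G.Adj b a) (hap : G.Adj a p) (hpq : G.Adj p q)
    (hqb : G.Adj q b) (hg : 22 < gg φ ⟨(b, a), hba⟩) :
    gg φ ⟨(b, a), hba⟩ + gg φ ⟨(a, p), hap⟩ + gg φ ⟨(p, q), hpq⟩ + gg φ ⟨(q, b), hqb⟩ ≤ 88 := by
  have n0 := hQ.not_TD hR
  have n1 := hQ.rot.not_TD hR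
  have n2 := hQ.rot.rot.not_TD hR
  have n3 := hQ.rot.rot.rot.not_TD hR
  have t0 : ¬ T φ ⟨(b, a), hba⟩ := fun h => n0 ((T_iff hR hba).1 h)
  have t1 : ¬ T φ ⟨(a, p), hap⟩ := fun h => n1 ((T_iff hR hap).1 h)
  have t2 : ¬ T φ ⟨(p, q), hpq⟩ := fun h => n2 ((T_iff hR hpq).1 h)
  have t3 : ¬ T φ ⟨(q, b), hqb⟩ := fun h => n3 ((T_iff hR hqb).1 h)
  have u0 := gg_le40 t0
  have u1 := gg_le40 t1
  have u2 := gg_le40 t2
  have u3 := gg_le40 t3
  have k1 : TD (Nx φ) a b := by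
    by_contra hc
    rw [gg_of_not hR hba hc] at hg
    norm_num at hg
  obtain ⟨c, t⟩ := k1
  have hbc := hR.adjr t.1
  have hca := hR.adjr t.2.1
  have h2 : T φ ⟨(a, b), hba.symm⟩ := (T_iff hR hba.symm).2 ⟨c, t⟩
  have h3 : gg φ ⟨(b, a), hba⟩ = g φ ⟨(a, b), hba.symm⟩ := by
    unfold gg
    exact if_pos h2
  have h4 : ¬ T φ (SimpleGraph.Dart.symm ⟨(a, b), hba.symm⟩) := t0
  have h5 : ¬ ii φ ⟨(a, b), hba.symm⟩ ≤ 1 := by
    intro h
    have := g_le20 h2 h4 h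
    rw [h3] at hg
    linarith
  rw [ii_tri hR hba.symm t, if_neg n0] at h5
  have h6 : TD (Nx φ) c b := by
    by_contra hc
    rw [if_neg hc] at h5
    apply h5
    split_ifs <;> omega
  have h7 : TD (Nx φ) a c := by
    by_contra hc
    rw [if_neg hc] at h5
    apply h5
    split_ifs <;> omega
  obtain ⟨x, s⟩ := h6
  obtain ⟨y, s'⟩ := h7
  rcases local4 hR hD hB hQ.1 hQ.2.1 hQ.2.2.1 hQ.2.2.2 t s s' with
    ⟨m1, m2, rfl, rfl⟩ | ⟨m1, m2⟩ | ⟨m1, m2⟩ | ⟨m1, m2, m3, m4⟩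
  · exfalso
    have f1 := nx_apply t.1 hba.symm hbc
    have f2 := nx_apply t.2.1 hbc hca
    have i1 : ii φ ⟨(c, b), hbc.symm⟩ = 1 := by
      rw [ii_tri hR hbc.symm s, if_pos ⟨a, t.rot⟩, if_neg n3, if_neg m1]
    have i2 : ii φ ⟨(a, c), hca.symm⟩ = 1 := by
      rw [ii_tri hR hca.symm s', if_pos ⟨b, t.rot'⟩, if_neg m2, if_neg n1]
    have := g_le22 h2 h4 (by rw [f1]; exact (T_iff hR hbc.symm).2 ⟨_, s⟩)
      (by rw [f1, f2]; exact (T_iff hR hca.symm).2 ⟨_, s'⟩) (by rw [f1]; exact i1)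
      (by rw [f1, f2]; exact i2)
    rw [h3] at hg
    linarith
  · rw [gg_of_not hR hpq m1, gg_of_not hR hqb m2]
    linarith
  · rw [gg_of_not hR hpq m1, gg_of_not hR hap m2]
    linarith
  · have v1 : gg φ ⟨(a, p), hap⟩ ≤ 20 := by
      apply gg_le20 hR hap n1
      intro r hr
      have := m2 r hr
      subst this
      exact Or.inr n2
    have v2 : gg φ ⟨(p, q), hpq⟩ ≤ 20 := by
      apply gg_le20 hR hpq n2
      intro r hr
      rcases m3 r hr with rfl | rfl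
      · exact Or.inl n1
      · exact Or.inr n3
    have v3 : gg φ ⟨(q, b), hqb⟩ ≤ 20 := by
      apply gg_le20 hR hqb n3
      intro r hr
      have := m4 r hr
      subst this
      exact Or.inl n2
    rcases m1 with m1 | m1
    · rw [gg_of_not hR hqb m1]; linarith
    · rw [gg_of_not hR hap m1]; linarith

theorem quad_sum [DecidableEq V] (hR : RS G (Nx φ)) (hD : DomFree G) {b a p q : V} (hB : Big G a)
    (hQ : Quad (Nx φ) b a p q) (hba : G.Adj b a) (hap : G.Adj a p) (hpq : G.Adj p q)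
    (hqb : G.Adj q b) :
    gg φ ⟨(b, a), hba⟩ + gg φ ⟨(a, p), hap⟩ + gg φ ⟨(p, q), hpq⟩ + gg φ ⟨(q, b), hqb⟩ ≤ 88 := by
  have hBp := hB.adj hap
  have hBq := hBp.adj hpq
  have hBb := hBq.adj hqb
  by_cases h1 : 22 < gg φ ⟨(b, a), hba⟩
  · exact quadC hR hD hB hQ hba hap hpq hqb h1
  by_cases h2 : 22 < gg φ ⟨(a, p), hap⟩
  · have := quadC hR hD hBp hQ.rot hap hpq hqb hba h2
    linarith
  by_cases h3 : 22 < gg φ ⟨(p, q), hpq⟩
  · have := quadC hR hD hBq hQ.rot.rot hpq hqb hba hap h3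
    linarith
  by_cases h4 : 22 < gg φ ⟨(q, b), hqb⟩
  · have := quadC hR hD hBb hQ.rot.rot.rot hqb hba hap hpq h4
    linarith
  push Not at h1 h2 h3 h4
  linarith

/-- total charge received by a face of length four -/
theorem four_sum [DecidableEq V] (hR : RS G (Nx φ)) (hD : DomFree G) (d : G.Dart)
    (hB : Big G d.fst) (h4 : φ (φ (φ (φ d))) = d) :
    gg φ d + gg φ (φ d) + gg φ (φ (φ d)) + gg φ (φ (φ (φ d))) ≤ 88 := by
  obtain ⟨⟨b, a⟩, hba⟩ := d
  simp only at hba hB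
  obtain ⟨p, h1⟩ := hR.tot hba
  have hap := hR.adjr h1
  obtain ⟨q, h2⟩ := hR.tot hap
  have hpq := hR.adjr h2
  obtain ⟨r, h3⟩ := hR.tot hpq
  have hqr := hR.adjr h3
  obtain ⟨s, h5⟩ := hR.tot hqr
  have hrs := hR.adjr h5
  have e1 := nx_apply h1 hba hap
  have e2 := nx_apply h2 hap hpq
  have e3 := nx_apply h3 hpq hqr
  have e4 := nx_apply h5 hqr hrs
  rw [e1, e2, e3, e4] at h4
  have e5 : r = b := congrArg (fun x : G.Dart => x.fst) h4
  have e6 : s = a := congrArg (fun x : G.Dart => x.snd) h4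
  subst e5
  subst e6
  rw [e1, e2, e3]
  exact quad_sum hR hD (hB.adj hba) ⟨h1, h2, h3, h5⟩ hba hap hpq hqr

/-- charge of a dart, in units of `1/360` -/
noncomputable def chi (φ : Equiv.Perm G.Dart) (d : G.Dart) : ℚ :=
  if T φ d then 8 else if φ (φ (φ (φ d))) = d then -22 else -40

/-- the total charge of a set of darts closed under the two permutations is nonpositive -/
theorem chi_sum [DecidableEq V] (hR : RS G (Nx φ)) (hD : DomFree G) (S : Finset G.Dart)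
    (hS : ∀ d, φ d ∈ S ↔ d ∈ S) (hS' : ∀ d : G.Dart, d.symm ∈ S ↔ d ∈ S)
    (hB : ∀ d ∈ S, Big G d.fst) : ∑ d ∈ S, chi φ d ≤ 0 := by
  -- triangles
  set A := S.filter (fun d => T φ d) with hA
  have memA : ∀ d, d ∈ A ↔ d ∈ S ∧ T φ d := by intro d; rw [hA, Finset.mem_filter]
  have shiftA : ∀ f : G.Dart → ℚ, ∑ d ∈ A, f (φ d) = ∑ d ∈ A, f d := by
    intro f
    apply Finset.sum_equiv φ
    · intro d
      rw [memA, memA, hS, T_next_iff]
    · intro d _; rfl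
  have s1 : ∑ d ∈ A, (8 : ℚ) ≤ ∑ d ∈ A, g φ d := by
    have h1 : ∑ d ∈ A, (24 : ℚ) ≤ ∑ d ∈ A, (g φ d + g φ (φ d) + g φ (φ (φ d))) := by
      apply Finset.sum_le_sum
      intro d hd
      rw [memA] at hd
      exact bal hR hD d (hB d hd.1) hd.2
    rw [Finset.sum_add_distrib, Finset.sum_add_distrib, shiftA (fun d => g φ (φ d)),
      shiftA (fun d => g φ d)] at h1
    have h2 : ∑ d ∈ A, (24 : ℚ) = 3 * ∑ d ∈ A, (8 : ℚ) := by
      rw [Finset.mul_sum]; norm_num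
    linarith
  -- inner edges cancel
  have s2 : ∑ d ∈ A.filter (fun d => T φ d.symm), g φ d = 0 := by
    have h1 : ∑ d ∈ A.filter (fun d => T φ d.symm), g φ d =
        ∑ d ∈ A.filter (fun d => T φ d.symm), g φ d.symm := by
      refine Finset.sum_bij' (fun d _ => d.symm) (fun d _ => d.symm) ?_ ?_ ?_ ?_ ?_
      · intro d hd
        rw [Finset.mem_filter, memA] at hd ⊢
        rw [SimpleGraph.Dart.symm_symm, hS']
        exact ⟨⟨hd.1.1, hd.2⟩, hd.1.2⟩
      · intro d hd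
        rw [Finset.mem_filter, memA] at hd ⊢
        rw [SimpleGraph.Dart.symm_symm, hS']
        exact ⟨⟨hd.1.1, hd.2⟩, hd.1.2⟩
      · intro d _; exact SimpleGraph.Dart.symm_symm d
      · intro d _; exact SimpleGraph.Dart.symm_symm d
      · intro d _; rw [SimpleGraph.Dart.symm_symm]
    have h2 : ∑ d ∈ A.filter (fun d => T φ d.symm), g φ d =
        - ∑ d ∈ A.filter (fun d => T φ d.symm), g φ d.symm := by
      rw [← Finset.sum_neg_distrib]
      apply Finset.sum_congr rfl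
      intro d hd
      rw [Finset.mem_filter, memA] at hd
      exact g_antisymm hd.1.2 hd.2
    linarith
  -- outer edges
  set B := S.filter (fun d => ¬ T φ d) with hBdef
  have memB : ∀ d, d ∈ B ↔ d ∈ S ∧ ¬ T φ d := by intro d; rw [hBdef, Finset.mem_filter]
  have s3 : ∑ d ∈ A.filter (fun d => ¬ T φ d.symm), g φ d = ∑ d ∈ B, gg φ d := by
    have h1 : ∑ d ∈ B, gg φ d = ∑ d ∈ B.filter (fun d => T φ d.symm), g φ d.symm :=
      (Finset.sum_filter (fun d : G.Dart => T φ d.symm) (fun d => g φ d.symm)).symm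
    rw [h1]
    refine Finset.sum_bij' (fun d _ => d.symm) (fun d _ => d.symm) ?_ ?_ ?_ ?_ ?_
    · intro d hd
      rw [Finset.mem_filter, memA] at hd
      rw [Finset.mem_filter, memB, SimpleGraph.Dart.symm_symm, hS']
      exact ⟨⟨hd.1.1, hd.2⟩, hd.1.2⟩
    · intro d hd
      rw [Finset.mem_filter, memB] at hd
      rw [Finset.mem_filter, memA, SimpleGraph.Dart.symm_symm, hS']
      exact ⟨⟨hd.1.1, hd.2⟩, hd.1.2⟩
    · intro d _; exact SimpleGraph.Dart.symm_symm d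
    · intro d _; exact SimpleGraph.Dart.symm_symm d
    · intro d _; rw [SimpleGraph.Dart.symm_symm]
  have s4 : ∑ d ∈ A, g φ d = ∑ d ∈ B, gg φ d := by
    rw [← Finset.sum_filter_add_sum_filter_not A (fun d => T φ d.symm), s2, s3, zero_add]
  -- four-faces
  have F4next : ∀ d, (φ (φ (φ (φ (φ d)))) = φ d) ↔ φ (φ (φ (φ d))) = d :=
    fun d => ⟨fun h => φ.injective h, fun h => by rw [h]⟩
  set Q := B.filter (fun d => φ (φ (φ (φ d))) = d) with hQ
  have memQ : ∀ d, d ∈ Q ↔ (d ∈ S ∧ ¬ T φ d) ∧ φ (φ (φ (φ d))) = d := by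
    intro d; rw [hQ, Finset.mem_filter, memB]
  have shiftQ : ∀ f : G.Dart → ℚ, ∑ d ∈ Q, f (φ d) = ∑ d ∈ Q, f d := by
    intro f
    apply Finset.sum_equiv φ
    · intro d
      rw [memQ, memQ, hS, T_next_iff, F4next]
    · intro d _; rfl
  have s5 : ∑ d ∈ Q, gg φ d ≤ ∑ d ∈ Q, (22 : ℚ) := by
    have h1 : ∑ d ∈ Q, (gg φ d + gg φ (φ d) + gg φ (φ (φ d)) + gg φ (φ (φ (φ d))))
        ≤ ∑ d ∈ Q, (88 : ℚ) := by
      apply Finset.sum_le_sum
      intro d hd
      rw [memQ] at hd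
      exact four_sum hR hD d (hB d hd.1.1) hd.2
    rw [Finset.sum_add_distrib, Finset.sum_add_distrib, Finset.sum_add_distrib,
      shiftQ (fun d => gg φ (φ (φ d))), shiftQ (fun d => gg φ (φ d)),
      shiftQ (fun d => gg φ d)] at h1
    have h2 : ∑ d ∈ Q, (88 : ℚ) = 4 * ∑ d ∈ Q, (22 : ℚ) := by
      rw [Finset.mul_sum]; norm_num
    linarith
  have s6 : ∑ d ∈ B.filter (fun d => ¬ φ (φ (φ (φ d))) = d), gg φ d ≤
      ∑ d ∈ B.filter (fun d => ¬ φ (φ (φ (φ d))) = d), (40 : ℚ) := by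
    apply Finset.sum_le_sum
    intro d hd
    rw [Finset.mem_filter, memB] at hd
    exact gg_le40 hd.1.2
  have s7 : ∑ d ∈ B, gg φ d ≤ ∑ d ∈ Q, (22 : ℚ) +
      ∑ d ∈ B.filter (fun d => ¬ φ (φ (φ (φ d))) = d), (40 : ℚ) := by
    rw [← Finset.sum_filter_add_sum_filter_not B (fun d => φ (φ (φ (φ d))) = d)]
    linarith
  -- total
  have s8 : ∑ d ∈ S, chi φ d = ∑ d ∈ A, (8 : ℚ) - ∑ d ∈ Q, (22 : ℚ) -
      ∑ d ∈ B.filter (fun d => ¬ φ (φ (φ (φ d))) = d), (40 : ℚ) := by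
    rw [← Finset.sum_filter_add_sum_filter_not S (fun d => T φ d)]
    rw [← Finset.sum_filter_add_sum_filter_not B (fun d => φ (φ (φ (φ d))) = d)]
    have h1 : ∑ d ∈ A, chi φ d = ∑ d ∈ A, (8 : ℚ) := by
      apply Finset.sum_congr rfl
      intro d hd
      rw [memA] at hd
      unfold chi; rw [if_pos hd.2]
    have h2 : ∑ d ∈ Q, chi φ d = - ∑ d ∈ Q, (22 : ℚ) := by
      rw [← Finset.sum_neg_distrib]
      apply Finset.sum_congr rfl
      intro d hd
      rw [memQ] at hd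
      unfold chi; rw [if_neg hd.1.2, if_pos hd.2]
    have h3 : ∑ d ∈ B.filter (fun d => ¬ φ (φ (φ (φ d))) = d), chi φ d =
        - ∑ d ∈ B.filter (fun d => ¬ φ (φ (φ (φ d))) = d), (40 : ℚ) := by
      rw [← Finset.sum_neg_distrib]
      apply Finset.sum_congr rfl
      intro d hd
      rw [Finset.mem_filter, memB] at hd
      unfold chi; rw [if_neg hd.1.2, if_neg hd.2]
    rw [h1, h2, h3]; ring
  rw [s8]
  linarith

end Pool.Agent.H47.PT
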