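import Mathlib

/-!
# Planar graphs (rotation systems of genus 0) and planar Turán numbers
-/

namespace Pool.Agent.H47.PT

/-- A graph `G` on a finite vertex set is planar: it has a rotation system of genus `0`.  Here `σ`
cyclically permutes the darts (oriented edges) leaving each vertex (same tail, and transitive on the
darts with a given tail), `φ` is the face permutation (reverse the dart, then rotate), and Euler's
formula holds with equality on every component, that is, in total
`#vertices + #faces = #edges + 2 #components`; the faces are the cycles of `φ`, plus one face for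
each isolated vertex (which carries no dart). -/
def IsPlanar {V : Type} (G : SimpleGraph V) : Prop :=
  ∃ σ φ : Equiv.Perm G.Dart,
    (∀ d, (σ d).fst = d.fst) ∧
    (∀ d d' : G.Dart, d.fst = d'.fst → ∃ n : ℕ, (σ ^ n) d = d') ∧
    (∀ d, φ d = σ d.symm) ∧
    Nat.card V + (Nat.card (Quotient (Equiv.Perm.SameCycle.setoid φ))
        + Nat.card {v : V // ∀ w, ¬ G.Adj v w})
      = Nat.card G.edgeSet + 2 * Nat.card G.ConnectedComponent

/-- The planar Turán number: the maximum number of edges of a planar `H`-free graph on `n`
vertices (`H.Free G` says that no subgraph of `G`, induced or not, is isomorphic to `H`). -/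
noncomputable def exPlanar {W : Type} (H : SimpleGraph W) (n : ℕ) : ℕ :=
  sSup {m : ℕ | ∃ G : SimpleGraph (Fin n), IsPlanar G ∧ H.Free G ∧ Nat.card G.edgeSet = m}

/-- The symmetric theta graph on six vertices: the 6-cycle `0 1 2 3 4 5` with the chord `0 3`. -/
def theta : SimpleGraph (Fin 6) :=
  SimpleGraph.fromEdgeSet {s(0, 1), s(1, 2), s(2, 3), s(3, 4), s(4, 5), s(5, 0), s(0, 3)}

end Pool.Agent.H47.PT
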