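import Mathlib

/-!
# The genus of a rotation system is nonnegative

`genus_nonneg` : `V + F + I ≤ E + 2 C` for every rotation system of a finite graph (`I` = number of
isolated vertices, `F` = number of cycles of the face permutation, `C` = number of components).
-/

namespace Pool.Agent.H47.PT

open Classical Equiv.Perm

section setoids
variable {D : Type} [Fintype D]

/-- join of a setoid with one pair -/
def joinPair (r : Setoid D) (a b : D) : Setoid D where
  r x y := r x y ∨ (r x a ∧ r y b) ∨ (r x b ∧ r y a)
  iseqv := by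
    refine ⟨fun x => Or.inl (r.refl x), ?_, ?_⟩
    · rintro x y (h | ⟨h, h'⟩ | ⟨h, h'⟩)
      · exact Or.inl (r.symm h)
      · exact Or.inr (Or.inr ⟨h', h⟩)
      · exact Or.inr (Or.inl ⟨h', h⟩)
    · rintro x y z (h | ⟨h, h'⟩ | ⟨h, h'⟩) (k | ⟨k, k'⟩ | ⟨k, k'⟩)
      · exact Or.inl (r.trans h k)
      · exact Or.inr (Or.inl ⟨r.trans h k, k'⟩)
      · exact Or.inr (Or.inr ⟨r.trans h k, k'⟩)
      · exact Or.inr (Or.inl ⟨h, r.trans (r.symm k) h'⟩)
      · exact Or.inl (r.trans h (r.trans (r.trans (r.symm k) h') (r.symm k')))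
      · exact Or.inl (r.trans h (r.symm k'))
      · exact Or.inr (Or.inr ⟨h, r.trans (r.symm k) h'⟩)
      · exact Or.inl (r.trans h (r.symm k'))
      · exact Or.inl (r.trans h (r.trans (r.trans (r.symm k) h') (r.symm k')))

theorem card_le_of_le (r s : Setoid D) (h : ∀ x y, r x y → s x y) :
    Nat.card (Quotient s) ≤ Nat.card (Quotient r) := by
  let f : Quotient r → Quotient s := Quotient.map' id (fun x y hxy => h x y hxy)
  have hf : Function.Surjective f := by
    intro q
    induction q using Quotient.inductionOn with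
    | h x => exact ⟨Quotient.mk r x, rfl⟩
  exact Nat.card_le_card_of_surjective f hf

theorem card_join_ge (r : Setoid D) (a b : D) :
    Nat.card (Quotient r) ≤ Nat.card (Quotient (joinPair r a b)) + 1 := by
  let f : Quotient r → Option (Quotient (joinPair r a b)) := fun q =>
    if q = Quotient.mk r a then none
    else some (Quotient.map' id (fun x y hxy => Or.inl hxy) q)
  have hf : Function.Injective f := by
    intro p q
    induction p using Quotient.inductionOn with
    | h x =>
      induction q using Quotient.inductionOn with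
      | h y =>
        intro h
        simp only [f] at h
        split_ifs at h with h1 h2 h3
        · rw [h1, h2]
        · rw [Option.some.injEq] at h
          have h4 : (joinPair r a b) x y := Quotient.exact h
          rcases h4 with h4 | ⟨h4, -⟩ | ⟨-, h4⟩
          · exact Quotient.sound h4
          · exact absurd (Quotient.sound h4) h1
          · exact absurd (Quotient.sound h4) h3
  have := Nat.card_le_card_of_injective f hf
  rwa [Finite.card_option] at this

theorem card_join_lt (r : Setoid D) (a b : D) (h : ¬ r a b) :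
    Nat.card (Quotient (joinPair r a b)) + 1 ≤ Nat.card (Quotient r) := by
  let f : Quotient r → Quotient (joinPair r a b) :=
    Quotient.map' id (fun x y hxy => Or.inl hxy)
  have hf : Function.Surjective f := by
    intro q
    induction q using Quotient.inductionOn with
    | h x => exact ⟨Quotient.mk r x, rfl⟩
  have hf' : ¬ Function.Injective f := by
    intro hi
    apply h
    have h1 : f (Quotient.mk r a) = f (Quotient.mk r b) :=
      Quotient.sound (s := joinPair r a b) (Or.inr (Or.inl ⟨r.refl a, r.refl b⟩))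
    exact Quotient.exact (hi h1)
  have : Fintype (Quotient r) := Fintype.ofFinite _
  have : Fintype (Quotient (joinPair r a b)) := Fintype.ofFinite _
  rw [Nat.card_eq_fintype_card, Nat.card_eq_fintype_card]
  exact Fintype.card_lt_of_surjective_not_injective f hf hf'

end setoids

section perms
variable {D : Type} [Fintype D] [DecidableEq D]

/-- number of cycles -/
noncomputable def cyc (π : Equiv.Perm D) : ℕ := Nat.card (Quotient (SameCycle.setoid π))

theorem sameCycle_of_step {π : Equiv.Perm D} (s : Setoid D) (h : ∀ x, s x (π x)) {x y : D}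
    (hxy : SameCycle π x y) : s x y := by
  obtain ⟨i, hi⟩ := hxy.exists_nat_pow_eq
  have : ∀ n : ℕ, s x ((π ^ n) x) := by
    intro n
    induction n with
    | zero => exact s.refl x
    | succ n ih =>
      rw [pow_succ', Equiv.Perm.mul_apply]
      exact s.trans ih (h _)
  rw [← hi]
  exact this i

theorem step_join (π : Equiv.Perm D) (a b : D) (r : Setoid D) (h : ∀ x, r x (π x)) (x : D) :
    (joinPair r a b) x ((π * Equiv.swap a b) x) := by
  rw [Equiv.Perm.mul_apply]
  by_cases h1 : x = a
  · subst h1
    rw [Equiv.swap_apply_left]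
    exact Or.inr (Or.inl ⟨r.refl x, r.symm (h b)⟩)
  by_cases h2 : x = b
  · subst h2
    rw [Equiv.swap_apply_right]
    exact Or.inr (Or.inr ⟨r.refl x, r.symm (h a)⟩)
  rw [Equiv.swap_apply_of_ne_of_ne h1 h2]
  exact Or.inl (h x)

theorem step_self (π : Equiv.Perm D) (x : D) : (SameCycle.setoid π) x (π x) :=
  (⟨1, by simp⟩ : SameCycle π x (π x))

theorem cyc_le (π : Equiv.Perm D) (a b : D) : cyc (π * Equiv.swap a b) ≤ cyc π + 1 := by
  unfold cyc
  refine (card_join_ge (SameCycle.setoid (π * Equiv.swap a b)) a b).trans ?_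
  apply Nat.add_le_add_right
  apply card_le_of_le
  intro x y hxy
  apply sameCycle_of_step (π := π) _ _ hxy
  intro x
  have := step_join (π * Equiv.swap a b) a b _ (step_self _) x
  rwa [mul_assoc, Equiv.swap_mul_self, mul_one] at this

theorem sameCycle_swap (π : Equiv.Perm D) {a b : D} (hab : ¬ SameCycle π a b) :
    SameCycle (π * Equiv.swap a b) a b := by
  have key : ∀ i : ℕ, 1 ≤ i → (∀ j, 1 ≤ j → j < i → (π ^ j) b ≠ b) →
      ((π * Equiv.swap a b) ^ i) a = (π ^ i) b := by
    intro i hi
    induction i with
    | zero => omega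
    | succ n ih =>
      intro h
      by_cases hn : n = 0
      · subst hn
        simp
      · rw [pow_succ', Equiv.Perm.mul_apply, ih (by omega) (fun j h1 h2 => h j h1 (by omega)),
          pow_succ', Equiv.Perm.mul_apply, Equiv.Perm.mul_apply]
        congr 1
        apply Equiv.swap_apply_of_ne_of_ne
        · intro h1
          apply hab
          exact SameCycle.symm ⟨n, by simpa using h1⟩
        · exact h n (by omega) (by omega)
  have hex : ∃ k : ℕ, 1 ≤ k ∧ (π ^ k) b = b :=
    ⟨orderOf π, orderOf_pos π, by rw [pow_orderOf_eq_one]; rfl⟩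
  have h1 := Nat.find_spec hex
  have h2 := key (Nat.find hex) h1.1 (fun j hj hj' h3 => Nat.find_min hex hj' ⟨hj, h3⟩)
  refine ⟨(Nat.find hex : ℤ), ?_⟩
  rw [zpow_natCast, h2, h1.2]

theorem cyc_lt (π : Equiv.Perm D) {a b : D} (hab : ¬ SameCycle π a b) :
    cyc (π * Equiv.swap a b) + 1 ≤ cyc π := by
  have h1 := sameCycle_swap π hab
  have h2 := card_join_lt (SameCycle.setoid π) a b hab
  refine le_trans ?_ h2
  apply Nat.add_le_add_right
  apply card_le_of_le
  have hstep : ∀ x, (SameCycle.setoid (π * Equiv.swap a b)) x (π x) := by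
    intro x
    have hs := step_self (π * Equiv.swap a b)
    by_cases hxa : x = a
    · subst hxa
      have h3 := hs b
      rw [Equiv.Perm.mul_apply, Equiv.swap_apply_right] at h3
      exact SameCycle.trans h1 h3
    by_cases hxb : x = b
    · subst hxb
      have h3 := hs a
      rw [Equiv.Perm.mul_apply, Equiv.swap_apply_left] at h3
      exact SameCycle.trans h1.symm h3
    · have h3 := hs x
      rwa [Equiv.Perm.mul_apply, Equiv.swap_apply_of_ne_of_ne hxa hxb] at h3
  rintro x y (h | ⟨h, h'⟩ | ⟨h, h'⟩)
  · exact sameCycle_of_step _ hstep h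
  · exact SameCycle.trans (sameCycle_of_step _ hstep h)
      (SameCycle.trans h1 (SameCycle.symm (sameCycle_of_step _ hstep h')))
  · exact SameCycle.trans (sameCycle_of_step _ hstep h)
      (SameCycle.trans h1.symm (SameCycle.symm (sameCycle_of_step _ hstep h')))

theorem cyc_step (π : Equiv.Perm D) (a b : D) (r : Setoid D) (h : ∀ x, r x (π x)) (n m : ℕ)
    (hr : cyc π + m ≤ n + 2 * Nat.card (Quotient r)) :
    cyc (π * Equiv.swap a b) + m ≤ (n + 1) + 2 * Nat.card (Quotient (joinPair r a b)) := by
  have h1 := cyc_le π a b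
  by_cases hab : r a b
  · have h2 : Nat.card (Quotient r) ≤ Nat.card (Quotient (joinPair r a b)) := by
      apply card_le_of_le
      rintro x y (k | ⟨k, k'⟩ | ⟨k, k'⟩)
      · exact k
      · exact r.trans k (r.trans hab (r.symm k'))
      · exact r.trans k (r.trans (r.symm hab) (r.symm k'))
    omega
  · have h2 := card_join_ge r a b
    have h3 := cyc_lt π (a := a) (b := b) (fun h4 => hab (sameCycle_of_step r h h4))
    omega

end perms

section
variable {V : Type} [Fintype V] {G : SimpleGraph V}

/-- the involution reversing the darts over the edges of `S` -/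
noncomputable def tau (S : Finset (Sym2 V)) : Equiv.Perm G.Dart :=
  Function.Involutive.toPerm (fun d => if d.edge ∈ S then d.symm else d) (by
    intro d
    by_cases h : d.edge ∈ S
    · simp [h]
    · simp [h])

theorem tau_apply (S : Finset (Sym2 V)) (d : G.Dart) :
    tau S d = if d.edge ∈ S then d.symm else d := rfl

theorem tau_insert (S : Finset (Sym2 V)) (d0 : G.Dart) (h : d0.edge ∉ S) :
    (tau (insert d0.edge S) : Equiv.Perm G.Dart) = tau S * Equiv.swap d0 d0.symm := by
  ext1 d
  rw [Equiv.Perm.mul_apply, tau_apply, tau_apply]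
  by_cases h1 : d = d0
  · subst h1
    rw [if_pos (Finset.mem_insert_self _ _), Equiv.swap_apply_left, SimpleGraph.Dart.edge_symm,
      if_neg h]
  by_cases h2 : d = d0.symm
  · subst h2
    have h5 : d0.symm.edge ∈ insert d0.edge S := by
      rw [SimpleGraph.Dart.edge_symm]
      exact Finset.mem_insert_self _ _
    rw [Equiv.swap_apply_right, if_neg h, if_pos h5, SimpleGraph.Dart.symm_symm]
  rw [Equiv.swap_apply_of_ne_of_ne h1 h2]
  have h3 : d.edge ≠ d0.edge := by
    intro h3
    rcases SimpleGraph.dart_edge_eq_iff _ _ |>.1 h3 with h4 | h4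
    · exact h1 h4
    · exact h2 h4
  have h4 : d.edge ∈ insert d0.edge S ↔ d.edge ∈ S := by
    rw [Finset.mem_insert]; simp [h3]
  simp only [h4]

/-- The genus of a rotation system is nonnegative. -/
theorem genus_nonneg (σ φ : Equiv.Perm G.Dart) (h1 : ∀ d, (σ d).fst = d.fst)
    (h2 : ∀ d d' : G.Dart, d.fst = d'.fst → ∃ n : ℕ, (σ ^ n) d = d')
    (h3 : ∀ d, φ d = σ d.symm) :
    Nat.card V + (Nat.card (Quotient (SameCycle.setoid φ)) + Nat.card {v : V // ∀ w, ¬ G.Adj v w})
      ≤ Nat.card G.edgeSet + 2 * Nat.card G.ConnectedComponent := by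
  have main : ∀ S : Finset (Sym2 V), S ⊆ G.edgeFinset → ∃ R : Setoid G.Dart,
      (∀ x y : G.Dart, x.fst = y.fst → R x y) ∧ (∀ d : G.Dart, d.edge ∈ S → R d d.symm) ∧
      (∀ d, R d ((σ * (tau S : Equiv.Perm G.Dart)) d)) ∧
      cyc (σ * (tau S : Equiv.Perm G.Dart)) + cyc σ ≤ S.card + 2 * Nat.card (Quotient R) := by
    intro S
    induction S using Finset.induction_on with
    | empty =>
      intro _
      have e : (σ * tau (∅ : Finset (Sym2 V)) : Equiv.Perm G.Dart) = σ := by
        ext1 d
        rw [Equiv.Perm.mul_apply, tau_apply, if_neg (Finset.notMem_empty _)]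
      refine ⟨SameCycle.setoid σ, ?_, ?_, ?_, ?_⟩
      · intro x y hxy
        obtain ⟨n, hn⟩ := h2 x y hxy
        exact (⟨n, by simpa using hn⟩ : SameCycle σ x y)
      · intro d hd
        exact absurd hd (Finset.notMem_empty _)
      · intro d
        rw [e]
        exact step_self σ d
      · rw [e]
        unfold cyc
        simp only [Finset.card_empty]
        omega
    | insert e S he ih =>
      intro hS
      obtain ⟨R, r1, r2, r3, r4⟩ := ih (fun x hx => hS (Finset.mem_insert_of_mem hx))
      have heG : e ∈ G.edgeFinset := hS (Finset.mem_insert_self _ _)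
      rw [SimpleGraph.mem_edgeFinset] at heG
      have hd0 : ∃ d0 : G.Dart, d0.edge = e := by
        induction e with
        | _ a b => exact ⟨⟨(a, b), heG⟩, rfl⟩
      obtain ⟨d0, rfl⟩ := hd0
      refine ⟨joinPair R d0 d0.symm, ?_, ?_, ?_, ?_⟩
      · intro x y hxy
        exact Or.inl (r1 x y hxy)
      · intro d hd
        rw [Finset.mem_insert] at hd
        rcases hd with hd | hd
        · rcases SimpleGraph.dart_edge_eq_iff _ _ |>.1 hd with h4 | h4
          · subst h4
            exact Or.inr (Or.inl ⟨R.refl _, R.refl _⟩)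
          · subst h4
            rw [SimpleGraph.Dart.symm_symm]
            exact Or.inr (Or.inr ⟨R.refl _, R.refl _⟩)
        · exact Or.inl (r2 d hd)
      · intro d
        rw [tau_insert S d0 he, ← mul_assoc]
        exact step_join (σ * (tau S : Equiv.Perm G.Dart)) d0 d0.symm R r3 d
      · rw [tau_insert S d0 he, ← mul_assoc, Finset.card_insert_of_notMem he]
        exact cyc_step (σ * (tau S : Equiv.Perm G.Dart)) d0 d0.symm R r3 S.card (cyc σ) r4
  obtain ⟨R, r1, r2, -, r4⟩ := main G.edgeFinset (Finset.Subset.refl _)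
  have e1 : (σ * tau G.edgeFinset : Equiv.Perm G.Dart) = φ := by
    ext1 d
    rw [Equiv.Perm.mul_apply, tau_apply, if_pos, h3]
    rw [SimpleGraph.mem_edgeFinset]
    exact d.edge_mem
  rw [e1] at r4
  have e2 : (G.edgeFinset.card) = Nat.card G.edgeSet := by
    rw [Nat.card_eq_fintype_card, SimpleGraph.edgeFinset_card]
  rw [e2] at r4
  have hinv : ∀ x y : G.Dart, SameCycle σ x y → x.fst = y.fst := by
    intro x y h
    obtain ⟨i, hi⟩ := h.exists_nat_pow_eq
    have : ∀ n : ℕ, ((σ ^ n) x).fst = x.fst := by
      intro n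
      induction n with
      | zero => rfl
      | succ n ih => rw [pow_succ', Equiv.Perm.mul_apply, h1, ih]
    rw [← hi, this]
  -- vertices
  have e3 : Nat.card V ≤ cyc σ + Nat.card {v : V // ∀ w, ¬ G.Adj v w} := by
    let f : V → Quotient (SameCycle.setoid σ) ⊕ {v : V // ∀ w, ¬ G.Adj v w} := fun v =>
      if h : ∃ d : G.Dart, d.fst = v then Sum.inl (Quotient.mk _ h.choose)
      else Sum.inr ⟨v, fun w hw => h ⟨⟨(v, w), hw⟩, rfl⟩⟩
    have hf : Function.Injective f := by
      intro v w hvw
      simp only [f] at hvw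
      split_ifs at hvw with h4 h5 h5
      · rw [Sum.inl.injEq] at hvw
        have h6 := hinv _ _ (Quotient.exact hvw)
        rw [h4.choose_spec, h5.choose_spec] at h6
        exact h6
      · rw [Sum.inr.injEq, Subtype.mk.injEq] at hvw
        exact hvw
    have := Nat.card_le_card_of_injective f hf
    rwa [Nat.card_sum] at this
  -- components
  have hreach : ∀ {a b : V}, G.Reachable a b → ∀ x y : G.Dart, x.fst = a → y.fst = b → R x y := by
    intro a b hab
    obtain ⟨p⟩ := hab
    induction p with
    | nil =>
      intro x y hx hy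
      exact r1 x y (hx.trans hy.symm)
    | @cons a c b h p ih =>
      intro x y hx hy
      have k1 : R x ⟨(a, c), h⟩ := r1 _ _ hx
      have k2 : R ⟨(a, c), h⟩ ⟨(c, a), h.symm⟩ := r2 ⟨(a, c), h⟩ (by
        rw [SimpleGraph.mem_edgeFinset]; exact h)
      exact R.trans k1 (R.trans k2 (ih _ y rfl hy))
  have e4 : Nat.card (Quotient R) + Nat.card {v : V // ∀ w, ¬ G.Adj v w} ≤
      Nat.card G.ConnectedComponent := by
    rw [← Nat.card_sum]
    let f : Quotient R ⊕ {v : V // ∀ w, ¬ G.Adj v w} → G.ConnectedComponent := fun q =>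
      match q with
      | Sum.inl q => G.connectedComponentMk q.out.fst
      | Sum.inr v => G.connectedComponentMk v.1
    have hiso : ∀ v : V, (∀ w, ¬ G.Adj v w) → ∀ w, G.Reachable v w → w = v := by
      intro v hv w hvw
      obtain ⟨p⟩ := hvw
      cases p with
      | nil => rfl
      | cons h _ => exact absurd h (hv _)
    apply Nat.card_le_card_of_injective f
    rintro (p | v) (q | w) h
    · have h5 : G.Reachable p.out.fst q.out.fst := SimpleGraph.ConnectedComponent.eq.1 h
      have h6 := hreach h5 _ _ rfl rfl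
      have h7 := Quotient.sound h6
      rw [Quotient.out_eq, Quotient.out_eq] at h7
      rw [h7]
    · exfalso
      have h5 : G.Reachable w.1 p.out.fst := (SimpleGraph.ConnectedComponent.eq.1 h).symm
      have h6 := hiso _ w.2 _ h5
      exact w.2 p.out.snd (h6 ▸ p.out.adj)
    · exfalso
      have h5 : G.Reachable v.1 q.out.fst := SimpleGraph.ConnectedComponent.eq.1 h
      have h6 := hiso _ v.2 _ h5
      exact v.2 q.out.snd (h6 ▸ q.out.adj)
    · have h5 : G.Reachable v.1 w.1 := SimpleGraph.ConnectedComponent.eq.1 h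
      have h6 := hiso _ v.2 _ h5
      congr 1
      exact Subtype.ext h6.symm
  have e5 : cyc φ = Nat.card (Quotient (SameCycle.setoid φ)) := rfl
  omega

end

end Pool.Agent.H47.PT
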