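import Pool.Agent.H47.PT.Map

/-!
# Local structure lemmas for the discharging argument
-/

namespace Pool.Agent.H47.PT

variable {V : Type} {G : SimpleGraph V} {N : V → V → V → Prop}

theorem tri_mirror {a b c : V} (h : Tri N a b c) : Tri (fun a b c => N c b a) c b a :=
  ⟨h.1, h.2.2, h.2.1⟩

theorem tri_of_mirror {a b c : V} (h : Tri (fun a b c => N c b a) a b c) : Tri N c b a :=
  ⟨h.1, h.2.2, h.2.1⟩

theorem td_mirror {a b : V} (h : TD N a b) : TD (fun a b c => N c b a) b a := by
  obtain ⟨c, hc⟩ := h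
  exact ⟨c, (tri_mirror hc).rot⟩

theorem td_of_mirror {a b : V} (h : TD (fun a b c => N c b a) a b) : TD N b a := by
  obtain ⟨c, hc⟩ := h
  exact ⟨c, (tri_of_mirror hc).rot⟩

/-- A triangle `t` all of whose neighbours are triangles, and such that a neighbour `s1` has another
neighbour `t'` with three triangular neighbours: then a neighbour of `t` has three triangular
neighbours. -/
theorem local1 [DecidableEq V] (h : RS G N) (hD : DomFree G) {a b c x y z w : V} (hB : Big G a)
    (t : Tri N a b c) (s1 : Tri N b a x) (s2 : Tri N c b y) (s3 : Tri N a c z)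
    (t' : Tri N x a w) (hxw : TD N x w) : TD N z c ∧ TD N a z := by
  have hab := h.adjl t.1
  have hbc := h.adjr t.1
  have hca := h.adjr t.2.1
  have hax := h.adjr s1.1
  have hxb := h.adjr s1.2.1
  have hby := h.adjr s2.1
  have hyc := h.adjr s2.2.1
  have hcz := h.adjr s3.1
  have hza := h.adjr s3.2.1
  have haw := h.adjr t'.1
  have hwx := h.adjr t'.2.1
  have hBb := hB.adj hab
  have hBc := hB.adj hca.symm
  have hBx := hB.adj hax
  have hBw := hB.adj haw
  have hxc : x ≠ c := apex_ne h hB t s1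
  have hya : y ≠ a := apex_ne h hBb t.rot s2
  have hzb : z ≠ b := apex_ne h hBc t.rot' s3
  have hwb : w ≠ b := apex_ne h hB s1.rot t'
  by_cases hwc : w = c
  · subst hwc
    have : z = x := h.fn s3.1 t'.2.1
    subst this
    exact ⟨hxw, ⟨b, s1.rot⟩⟩
  · have hzx : z ≠ x := by
      rintro rfl
      exact hwc (h.fn t'.1 s3.2.2)
    have e1 : z = w := by
      rcases path4 hD hab hca.symm hbc hax hxb.symm hcz (Or.inl hza.symm) hwx.symm
        (Or.inl haw) hxc.symm hza.ne hzb haw.ne' hwb with h1 | h1 | h1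
      · exact absurd h1 hzx
      · exact absurd h1 hwc
      · exact h1
    subst e1
    rcases path4 hD hab hca.symm hbc hax hxb.symm hyc.symm (Or.inr hby) hwx.symm
        (Or.inl haw) hxc.symm hya hby.ne' haw.ne' hwb with h1 | h1 | h1
    · subst h1
      exfalso
      obtain ⟨v, r⟩ := hxw
      have hva : v ≠ a := apex_ne h hBw t'.rot' r
      have hzv := h.adjr r.1
      have hvx := h.adjr r.2.1
      rcases path4 hD hax hab hxb haw hwx.symm hbc (Or.inl hca.symm) hzv (Or.inr hvx.symm)
        hwb.symm hca.ne hxc.symm hva hvx.ne with h2 | h2 | h2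
      · exact hwc h2.symm
      · subst h2
        exact hwc (h.fn r.2.2 s2.2.1)
      · subst h2
        refine big5 (a := a) (b := b) (c := c) (d := y) (e := z) hB ?_ ?_ ?_ ?_ ?_ <;> intro w hw
        · rcases nb4 h t.2.2 s1.1 t'.1 s3.2.2 hw with rfl | rfl | rfl | rfl <;> simp
        · rcases nb3 h t.1 s2.1 s1.2.2 hw with rfl | rfl | rfl <;> simp
        · rcases nb4 h t.2.1 s3.1 r.2.1 s2.2.2 hw with rfl | rfl | rfl | rfl <;> simp
        · rcases nb4 h s1.2.1 s2.2.1 r.2.2 t'.2.2 hw with rfl | rfl | rfl | rfl <;> simp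
        · rcases nb3 h t'.2.1 r.1 s3.2.1 hw with rfl | rfl | rfl <;> simp
    · exact absurd h1 hwc
    · subst h1
      exact ⟨⟨b, s2.rot'⟩, ⟨x, t'.rot⟩⟩

theorem local1' [DecidableEq V] (h : RS G N) (hD : DomFree G) {a b c x y z v : V} (hB : Big G b)
    (t : Tri N a b c) (s1 : Tri N b a x) (s2 : Tri N c b y) (s3 : Tri N a c z)
    (t' : Tri N b x v) (hvx : TD N v x) : TD N c y ∧ TD N y b := by
  have := local1 h.mirror hD (a := b) (b := a) (c := c) (x := x) (y := z) (z := y) (w := v) hB
    (tri_mirror t.rot') (tri_mirror s1.rot') (tri_mirror s3.rot') (tri_mirror s2.rot')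
    (tri_mirror t'.rot') (td_mirror hvx)
  exact ⟨td_of_mirror this.1, td_of_mirror this.2⟩

/-- Two adjacent triangles `t`, `s1` with three triangular neighbours each, first case. -/
theorem local2a [DecidableEq V] (h : RS G N) (hD : DomFree G) {a b c x y z v : V} (hB : Big G a)
    (t : Tri N a b c) (s1 : Tri N b a x) (s2 : Tri N c b y) (s3 : Tri N a c z)
    (t1 : Tri N x a c) (t2 : Tri N b x v) (hvc : v ≠ c) :
    z = x ∧ y = v ∧ ¬ TD N x c ∧ ¬ TD N c v ∧ ¬ TD N v x := by
  have hab := h.adjl t.1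
  have hbc := h.adjr t.1
  have hca := h.adjr t.2.1
  have hax := h.adjr s1.1
  have hxb := h.adjr s1.2.1
  have hby := h.adjr s2.1
  have hyc := h.adjr s2.2.1
  have hcz := h.adjr s3.1
  have hza := h.adjr s3.2.1
  have hcx := h.adjr t1.2.1
  have hxv := h.adjr t2.1
  have hvb := h.adjr t2.2.1
  have hBb := hB.adj hab
  have hBc := hB.adj hca.symm
  have hBx := hB.adj hax
  have hBv := hBb.adj hvb.symm
  have hxc : x ≠ c := apex_ne h hB t s1
  have hya : y ≠ a := apex_ne h hBb t.rot s2
  have hva : v ≠ a := apex_ne h hBx s1.rot' t2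
  have e1 : z = x := h.fn s3.1 t1.2.1
  subst e1
  have hyz : y ≠ z := by
    rintro rfl
    exact hvc (h.fn t2.1 s2.2.1)
  have e2 : y = v := by
    rcases path4 hD hab hca.symm hbc hax hxb.symm hyc.symm (Or.inr hby) hxv (Or.inr hvb.symm)
      hxc.symm hya hby.ne' hva hvb.ne with h1 | h1 | h1
    · exact absurd h1 hyz
    · exact absurd h1 hvc
    · exact h1
  subst e2
  -- the closing
  have close : ¬ Tri N z c y := by
    intro r
    refine big5 (a := a) (b := b) (c := c) (d := z) (e := y) hB ?_ ?_ ?_ ?_ ?_ <;> intro w hw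
    · rcases nb3 h t.2.2 s1.1 t1.1 hw with rfl | rfl | rfl <;> simp
    · rcases nb4 h t.1 s2.1 t2.2.2 s1.2.2 hw with rfl | rfl | rfl | rfl <;> simp
    · rcases nb4 h t.2.1 t1.2.1 r.1 s2.2.2 hw with rfl | rfl | rfl | rfl <;> simp
    · rcases nb4 h s1.2.1 t2.1 r.2.2 t1.2.2 hw with rfl | rfl | rfl | rfl <;> simp
    · rcases nb3 h s2.2.1 r.2.1 t2.2.1 hw with rfl | rfl | rfl <;> simp
  have nay : ¬ G.Adj a y := by
    intro ha
    rcases nb3 h t.2.2 s1.1 t1.1 ha with rfl | rfl | rfl
    · exact hvc rfl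
    · exact hvb.ne rfl
    · exact hyz rfl
  refine ⟨rfl, rfl, ?_, ?_, ?_⟩
  · rintro ⟨q, r⟩
    have hcq := h.adjr r.1
    have hqx := h.adjr r.2.1
    have hqa : q ≠ a := apex_ne h hBc t1.rot' r
    rcases path4 hD hca.symm hax hcx hab hbc.symm hqx.symm (Or.inr hcq) hby (Or.inr hyc.symm)
      hxb.ne hqa hcq.ne' hya hyc.ne with h1 | h1 | h1
    · subst h1
      exact hyz (h.fn s2.1 r.2.1)
    · exact hyz h1
    · subst h1
      exact close r
  · rintro ⟨q, r⟩
    have hyq := h.adjr r.1
    have hqc := h.adjr r.2.1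
    have hqb : q ≠ b := apex_ne h hBv s2.rot' r
    rcases path4 hD hbc hby hyc.symm hab.symm hca hyq (Or.inr hqc.symm) hax (Or.inl hxb.symm)
      hya hqb hqc.ne hxb.ne hxc with h1 | h1 | h1
    · subst h1
      exact nay hyq.symm
    · exact hyz h1.symm
    · subst h1
      exact close r.rot'
  · rintro ⟨q, r⟩
    have hxq := h.adjr r.1
    have hqy := h.adjr r.2.1
    have hqb : q ≠ b := apex_ne h hBx t2.rot r
    rcases path4 hD hxb.symm hby hxv hab.symm hax.symm hqy.symm (Or.inr hxq) hca.symm (Or.inl hbc)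
      hya hqb hxq.ne' hbc.ne' hxc.symm with h1 | h1 | h1
    · subst h1
      exact nay hqy
    · exact hvc h1.symm
    · subst h1
      exact close r.rot

/-- Two adjacent triangles `t`, `s1` with three triangular neighbours each. -/
theorem local2 [DecidableEq V] (h : RS G N) (hD : DomFree G) {a b c x y z v w : V} (hB : Big G a)
    (t : Tri N a b c) (s1 : Tri N b a x) (s2 : Tri N c b y) (s3 : Tri N a c z)
    (t1 : Tri N x a w) (t2 : Tri N b x v) :
    (¬ TD N z c ∧ ¬ TD N c y ∧ (∃ q, Tri N y b q ∧ ¬ TD N y q)) ∨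
    (¬ TD N c y ∧ ¬ TD N z c ∧ (∃ q, Tri N a z q ∧ ¬ TD N q z)) := by
  have hab := h.adjl t.1
  have hbc := h.adjr t.1
  have hca := h.adjr t.2.1
  have hax := h.adjr s1.1
  have hxb := h.adjr s1.2.1
  have hby := h.adjr s2.1
  have hyc := h.adjr s2.2.1
  have hcz := h.adjr s3.1
  have hza := h.adjr s3.2.1
  have haw := h.adjr t1.1
  have hwx := h.adjr t1.2.1
  have hxv := h.adjr t2.1
  have hvb := h.adjr t2.2.1
  have hBb := hB.adj hab
  have hBc := hB.adj hca.symm
  have hBx := hB.adj hax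
  have hxc : x ≠ c := apex_ne h hB t s1
  have hya : y ≠ a := apex_ne h hBb t.rot s2
  have hzb : z ≠ b := apex_ne h hBc t.rot' s3
  have hva : v ≠ a := apex_ne h hBx s1.rot' t2
  have hwb : w ≠ b := apex_ne h hB s1.rot t1
  by_cases hwc : w = c
  · subst hwc
    by_cases hvc : v = w
    · exfalso
      subst hvc
      have h1 := hB {a, b, v, x} (by simp) (by
        intro u hu w hw
        simp only [Finset.mem_insert, Finset.mem_singleton] at hu ⊢
        rcases hu with rfl | rfl | rfl | rfl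
        · rcases nb3 h t.2.2 s1.1 t1.1 hw with rfl | rfl | rfl <;> simp
        · rcases nb3 h t.1 t2.2.2 s1.2.2 hw with rfl | rfl | rfl <;> simp
        · rcases nb3 h t.2.1 t1.2.1 t2.2.1 hw with rfl | rfl | rfl <;> simp
        · rcases nb3 h s1.2.1 t2.1 t1.2.2 hw with rfl | rfl | rfl <;> simp)
      have := Finset.card_le_four (a := a) (b := b) (c := v) (d := x)
      omega
    · obtain ⟨e1, e2, h1, h2, h3⟩ := local2a h hD hB t s1 s2 s3 t1 t2 hvc
      subst e1 e2
      exact Or.inl ⟨h1, h2, ⟨z, t2.rot', h3⟩⟩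
  · by_cases hvc : v = c
    · subst hvc
      obtain ⟨e1, e2, h1, h2, h3⟩ := local2a h.mirror hD (a := b) (b := a) (c := v) (x := x)
        (y := z) (z := y) (v := w) hBb
        (tri_mirror t.rot') (tri_mirror s1.rot') (tri_mirror s3.rot') (tri_mirror s2.rot')
        (tri_mirror t2.rot') (tri_mirror t1.rot') hwc
      subst e1 e2
      exact Or.inr ⟨fun h' => h1 (td_mirror h'), fun h' => h2 (td_mirror h'),
        ⟨y, t1.rot, fun h' => h3 (td_mirror h')⟩⟩
    · exfalso
      have hzx : z ≠ x := by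
        rintro rfl
        exact hwc (h.fn t1.1 s3.2.2)
      have hyx : y ≠ x := by
        rintro rfl
        exact hvc (h.fn t2.1 s2.2.1)
      have e1 : y = w := by
        rcases path4 hD hab hca.symm hbc hax hxb.symm hyc.symm (Or.inr hby) hwx.symm (Or.inl haw)
          hxc.symm hya hby.ne' haw.ne' hwb with h1 | h1 | h1
        · exact absurd h1 hyx
        · exact absurd h1 hwc
        · exact h1
      have e2 : z = w := by
        rcases path4 hD hab hca.symm hbc hax hxb.symm hcz (Or.inl hza.symm) hwx.symm (Or.inl haw)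
          hxc.symm hza.ne hzb haw.ne' hwb with h1 | h1 | h1
        · exact absurd h1 hzx
        · exact absurd h1 hwc
        · exact h1
      have e3 : z = v := by
        rcases path4 hD hab hca.symm hbc hax hxb.symm hcz (Or.inl hza.symm) hxv (Or.inr hvb.symm)
          hxc.symm hza.ne hzb hva hvb.ne with h1 | h1 | h1
        · exact absurd h1 hzx
        · exact absurd h1 hvc
        · exact h1
      subst e1
      subst e2
      subst e3
      refine big5 (a := a) (b := b) (c := c) (d := x) (e := z) hB ?_ ?_ ?_ ?_ ?_ <;> intro w hw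
      · rcases nb4 h t.2.2 s1.1 t1.1 s3.2.2 hw with rfl | rfl | rfl | rfl <;> simp
      · rcases nb4 h t.1 s2.1 t2.2.2 s1.2.2 hw with rfl | rfl | rfl | rfl <;> simp
      · rcases nb3 h t.2.1 s3.1 s2.2.2 hw with rfl | rfl | rfl <;> simp
      · rcases nb3 h s1.2.1 t2.1 t1.2.2 hw with rfl | rfl | rfl <;> simp
      · rcases nb4 h t1.2.1 t2.2.1 s2.2.1 s3.2.1 hw with rfl | rfl | rfl | rfl <;> simp

end Pool.Agent.H47.PT
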