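import Pool.Agent.H47.PT.Local

/-!
# Local structure at a face of length four
-/

namespace Pool.Agent.H47.PT

variable {V : Type} {G : SimpleGraph V} {N : V → V → V → Prop}

/-- the face `b → a → p → q → b` of length 4 is a genuine 4-cycle -/
theorem quad_ne [DecidableEq V] (h : RS G N) {a b p q : V} (hB : Big G a)
    (q1 : N b a p) (q2 : N a p q) (q3 : N p q b) (q4 : N q b a) : b ≠ p ∧ a ≠ q := by
  constructor
  · rintro rfl
    have h1 := hB {a, b, q} (by simp) (by
      intro u hu w hw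
      simp only [Finset.mem_insert, Finset.mem_singleton] at hu ⊢
      rcases hu with rfl | rfl | rfl
      · rcases nb2 h q1 q1 hw with rfl | rfl <;> simp
      · rcases nb2 h q2 q4 hw with rfl | rfl <;> simp
      · rcases nb2 h q3 q3 hw with rfl | rfl <;> simp)
    have := Finset.card_le_three (a := a) (b := b) (c := q)
    omega
  · rintro rfl
    have h1 := hB {a, b, p} (by simp) (by
      intro u hu w hw
      simp only [Finset.mem_insert, Finset.mem_singleton] at hu ⊢
      rcases hu with rfl | rfl | rfl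
      · rcases nb2 h q1 q3 hw with rfl | rfl <;> simp
      · rcases nb2 h q4 q4 hw with rfl | rfl <;> simp
      · rcases nb2 h q2 q2 hw with rfl | rfl <;> simp)
    have := Finset.card_le_three (a := a) (b := b) (c := p)
    omega

/-- case `(q, p)`: no further triangle at `s` -/
theorem local4a [DecidableEq V] (h : RS G N) (hD : DomFree G) {a b c p q : V} (hB : Big G a)
    (q1 : N b a p) (q2 : N a p q) (q3 : N p q b) (q4 : N q b a)
    (t : Tri N a b c) (s : Tri N c b q) (s' : Tri N a c p) : ¬ TD N c q := by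
  rintro ⟨r, hr⟩
  obtain ⟨hbp, haq⟩ := quad_ne h hB q1 q2 q3 q4
  have hab := h.adjl t.1
  have hbc := h.adjr t.1
  have hca := h.adjr t.2.1
  have hap := h.adjr q1
  have hpq := h.adjr q2
  have hqb := h.adjr q3
  have hcq := h.adjl hr.1
  have hqr := h.adjr hr.1
  have hrc := h.adjr hr.2.1
  have hcp := h.adjr s'.1
  have hBc := hB.adj hca.symm
  have hBq := hBc.adj hcq
  have hrb : r ≠ b := apex_ne h hBq s.rot' hr
  by_cases hra : r = a
  · subst hra
    exact hpq.ne (h.fn s'.1 hr.2.2)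
  by_cases hrp : r = p
  · subst hrp
    refine big5 (a := a) (b := b) (c := c) (d := r) (e := q) hB ?_ ?_ ?_ ?_ ?_ <;> intro w hw
    · rcases nb3 h t.2.2 q1 s'.2.2 hw with rfl | rfl | rfl <;> simp
    · rcases nb3 h t.1 s.1 q4 hw with rfl | rfl | rfl <;> simp
    · rcases nb4 h t.2.1 s'.1 hr.2.2 s.2.2 hw with rfl | rfl | rfl | rfl <;> simp
    · rcases nb3 h q2 hr.2.1 s'.2.1 hw with rfl | rfl | rfl <;> simp
    · rcases nb3 h q3 s.2.1 hr.1 hw with rfl | rfl | rfl <;> simp
  exact hD c b q r a p hbc.symm hqb.symm hqr hrc hab.symm hap hcp.symm hcq.ne hrb.symm hca.ne hbp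
    haq.symm hpq.ne' hra hrp

/-- case `(p, p)` -/
theorem local4b [DecidableEq V] (h : RS G N) (hD : DomFree G) {a b c p q : V} (hB : Big G a)
    (q1 : N b a p) (q2 : N a p q) (q3 : N p q b) (q4 : N q b a)
    (t : Tri N a b c) (s : Tri N c b p) (s' : Tri N a c p) (hcq : c ≠ q) :
    ¬ TD N q p ∧ ¬ TD N b q := by
  obtain ⟨hbp, haq⟩ := quad_ne h hB q1 q2 q3 q4
  have hab := h.adjl t.1
  have hbc := h.adjr t.1
  have hca := h.adjr t.2.1
  have hap := h.adjr q1
  have hpq := h.adjr q2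
  have hqb := h.adjr q3
  have hcp := h.adjr s'.1
  have hbp' := h.adjr s.1
  have close : ¬ Tri N q p b := by
    intro r
    refine big5 (a := a) (b := b) (c := c) (d := p) (e := q) hB ?_ ?_ ?_ ?_ ?_ <;> intro w hw
    · rcases nb3 h t.2.2 q1 s'.2.2 hw with rfl | rfl | rfl <;> simp
    · rcases nb4 h t.1 s.1 r.2.1 q4 hw with rfl | rfl | rfl | rfl <;> simp
    · rcases nb3 h t.2.1 s'.1 s.2.2 hw with rfl | rfl | rfl <;> simp
    · rcases nb4 h q2 r.1 s.2.1 s'.2.1 hw with rfl | rfl | rfl | rfl <;> simp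
    · rcases nb2 h q3 r.2.2 hw with rfl | rfl <;> simp
  constructor
  · rintro ⟨r, hr⟩
    have hpr := h.adjr hr.1
    have hrq := h.adjr hr.2.1
    by_cases hrb : r = b
    · subst hrb; exact close hr
    by_cases hra : r = a
    · subst hra
      exact hcq (h.fn s'.2.2 hr.2.1)
    by_cases hrc : r = c
    · subst hrc
      exact hqb.ne (h.fn hr.2.1 s.2.2)
    exact hD p b q r c a hbp'.symm hqb.symm hrq.symm hpr.symm hbc hca hap hpq.ne (Ne.symm hrb)
      hcp.ne' hab.ne' hcq.symm haq.symm hrc hra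
  · rintro ⟨r, hr⟩
    have hqr := h.adjr hr.1
    have hrb' := h.adjr hr.2.1
    by_cases hrp : r = p
    · subst hrp; exact close hr.rot
    by_cases hra : r = a
    · subst hra
      exact hcq (h.fn t.1 hr.2.2)
    by_cases hrc : r = c
    · subst hrc
      exact hpq.ne (h.fn s.1 hr.2.2)
    exact hD b p q r a c hbp' hpq hqr hrb' hap.symm hca.symm hbc.symm hqb.ne' (Ne.symm hrp)
      hab.ne' hcp.ne' haq.symm hcq.symm hra hrc

/-- case `(p, q)` -/
theorem local4c [DecidableEq V] (h : RS G N) (hD : DomFree G) {a b c p q : V} (hB : Big G a)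
    (q1 : N b a p) (q2 : N a p q) (q3 : N p q b) (q4 : N q b a)
    (t : Tri N a b c) (s : Tri N c b p) (s' : Tri N a c q) :
    (¬ TD N b q ∨ ¬ TD N p a) ∧ (∀ r, Tri N p a r → r = q) ∧
      (∀ r, Tri N q p r → r = a ∨ r = b) ∧ (∀ r, Tri N b q r → r = p) := by
  obtain ⟨hbp, haq⟩ := quad_ne h hB q1 q2 q3 q4
  have hab := h.adjl t.1
  have hbc := h.adjr t.1
  have hca := h.adjr t.2.1
  have hap := h.adjr q1
  have hpq := h.adjr q2
  have hqb := h.adjr q3
  have hcq := h.adjr s'.1
  have hqa := h.adjr s'.2.1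
  have hbp' := h.adjr s.1
  have hpc := h.adjr s.2.1
  have k1 : ∀ r, Tri N p a r → r = q := by
    intro r hr
    have har := h.adjr hr.1
    have hrp := h.adjr hr.2.1
    by_contra hrq
    by_cases hrb : r = b
    · subst hrb
      exact hpc.ne (h.fn hr.2.1 t.1)
    by_cases hrc : r = c
    · subst hrc
      exact hpq.ne (h.fn hr.2.1 s'.1)
    exact hD c p r a q b hpc.symm hrp.symm har.symm hca.symm hpq hqb hbc (Ne.symm hrc)
      hap.ne' hcq.ne hbp.symm hrq hrb haq hab.ne
  have k2 : ∀ r, Tri N q p r → r = a ∨ r = b := by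
    intro r hr
    have hpr := h.adjr hr.1
    have hrq := h.adjr hr.2.1
    by_contra hcon
    push Not at hcon
    obtain ⟨hra, hrb⟩ := hcon
    by_cases hrc : r = c
    · subst hrc
      exact hqb.ne (h.fn hr.2.1 s.2.2)
    exact hD c q r p b a hcq hrq.symm hpr.symm hpc hqb hab.symm hca.symm (Ne.symm hrc)
      hpq.ne' hbc.ne' haq.symm hrb hra hbp.symm hap.ne'
  have k3 : ∀ r, Tri N b q r → r = p := by
    intro r hr
    have hqr := h.adjr hr.1
    have hrb' := h.adjr hr.2.1
    by_contra hrp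
    by_cases hra : r = a
    · subst hra
      exact hcq.ne (h.fn t.1 hr.2.2)
    by_cases hrc : r = c
    · subst hrc
      exact hpq.ne (h.fn s.1 hr.2.2)
    exact hD c b r q p a hbc.symm hrb'.symm hqr.symm hcq.symm hbp' hap.symm hca.symm (Ne.symm hrc)
      hqb.ne' hpc.ne' hab.ne' hrp hra hpq.ne' haq.symm
  refine ⟨?_, k1, k2, k3⟩
  by_contra hcon
  push Not at hcon
  obtain ⟨⟨r1, hr1⟩, ⟨r2, hr2⟩⟩ := hcon
  have e1 := k3 r1 hr1
  have e2 := k1 r2 hr2
  subst e1
  subst e2
  exact hab.ne (h.fn hr2.2.2 hr1.2.1)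

/-- a triangle `t` with exactly two triangular neighbours whose third edge lies on a face of
length four -/
theorem local4 [DecidableEq V] (h : RS G N) (hD : DomFree G) {a b c x y p q : V} (hB : Big G a)
    (q1 : N b a p) (q2 : N a p q) (q3 : N p q b) (q4 : N q b a)
    (t : Tri N a b c) (s : Tri N c b x) (s' : Tri N a c y) :
    (¬ TD N c x ∧ ¬ TD N y c ∧ x = q ∧ y = p) ∨ (¬ TD N q p ∧ ¬ TD N b q) ∨
    (¬ TD N q p ∧ ¬ TD N p a) ∨
    ((¬ TD N b q ∨ ¬ TD N p a) ∧ (∀ r, Tri N p a r → r = q) ∧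
      (∀ r, Tri N q p r → r = a ∨ r = b) ∧ (∀ r, Tri N b q r → r = p)) := by
  obtain ⟨hbp, haq⟩ := quad_ne h hB q1 q2 q3 q4
  have hab := h.adjl t.1
  have hbc := h.adjr t.1
  have hca := h.adjr t.2.1
  have hap := h.adjr q1
  have hpq := h.adjr q2
  have hqb := h.adjr q3
  have hbx := h.adjr s.1
  have hxc := h.adjr s.2.1
  have hcy := h.adjr s'.1
  have hya := h.adjr s'.2.1
  have hBb := hB.adj hab
  have hBc := hB.adj hca.symm
  have hxa : x ≠ a := apex_ne h hBb t.rot s
  have hyb : y ≠ b := apex_ne h hBc t.rot' s'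
  have hcp : c ≠ p := by
    rintro rfl
    have : q = y := h.fn q2 s'.1
    subst this
    exact hab.ne (h.fn s'.2.1 q3)
  have hcq : c ≠ q := by
    rintro rfl
    exact hxa (h.fn s.1 q4)
  have h1 : x = q ∨ x = p := by
    by_contra hcon
    push Not at hcon
    exact hD a b q p x c hab hqb.symm hpq.symm hap.symm hbx hxc hca haq hbp hxa.symm hbc.ne
      hcon.1.symm hcq.symm hcon.2.symm hcp.symm
  have h2 : y = q ∨ y = p := by
    by_contra hcon
    push Not at hcon
    exact hD a b q p c y hab hqb.symm hpq.symm hap.symm hbc hcy hya haq hbp hca.ne' hyb.symm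
      hcq.symm hcon.1.symm hcp.symm hcon.2.symm
  rcases h1 with h1 | h1 <;> rcases h2 with h2 | h2
  · -- (q,q)
    subst h1
    subst h2
    have := local4b h.mirror hD (a := b) (b := a) (c := c) (p := y) (q := p) hBb q4 q3 q2 q1
      (tri_mirror t.rot') (tri_mirror s'.rot') (tri_mirror s.rot') hcp
    exact Or.inr (Or.inr (Or.inl ⟨fun h' => this.1 (td_mirror h'),
      fun h' => this.2 (td_mirror h')⟩))
  · -- (q,p)
    subst h1
    subst h2
    have k1 := local4a h hD hB q1 q2 q3 q4 t s s'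
    have k2 := local4a h.mirror hD (a := b) (b := a) (c := c) (p := x) (q := y) hBb q4 q3 q2 q1
      (tri_mirror t.rot') (tri_mirror s'.rot') (tri_mirror s.rot')
    exact Or.inl ⟨k1, fun h' => k2 (td_mirror h'), rfl, rfl⟩
  · -- (p,q)
    subst h1
    subst h2
    exact Or.inr (Or.inr (Or.inr (local4c h hD hB q1 q2 q3 q4 t s s')))
  · -- (p,p)
    subst h1
    subst h2
    exact Or.inr (Or.inl (local4b h hD hB q1 q2 q3 q4 t s s' hcq))

end Pool.Agent.H47.PT
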