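import Pool.Agent.H47.PT.Table
import Pool.Agent.H47.PT.Defs
import Pool.Agent.H47.PT.Genus

/-!
# The lower bound
-/

namespace Pool.Agent.H47.PT

/-- the interval graph: vertices `0, ..., n-1` of the periodic map -/
def GI (n : ℕ) : SimpleGraph (Fin n) where
  Adj v w := ((w : ℤ) - v) ∈ off v
  symm := ⟨by
    intro v w h
    have := off_symm _ _ h
    have e1 : -((w : ℤ) - v) = (v : ℤ) - w := by ring
    have e2 : (v : ℤ) + ((w : ℤ) - v) = w := by ring
    rwa [e1, e2] at this⟩
  loopless := ⟨by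
    intro v h
    rw [sub_self] at h
    exact off_ne _ h⟩

theorem GI_adj {n : ℕ} {v w : Fin n} : (GI n).Adj v w ↔ ((w : ℤ) - v) ∈ off v := Iff.rfl

/-- the interval graphs are domino-free -/
theorem GI_free (n : ℕ) : theta.Free (GI n) := by
  rintro ⟨f⟩
  have hadj : ∀ i j : Fin 6, theta.Adj i j → ((f j : ℤ) - f i) ∈ off (f i) :=
    fun i j h => f.toHom.map_adj h
  have t : ∀ i j : Fin 6, s(i, j) ∈ ({s(0, 1), s(1, 2), s(2, 3), s(3, 4), s(4, 5), s(5, 0), s(0, 3)} :
      Set (Sym2 (Fin 6))) → i ≠ j → theta.Adj i j := by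
    intro i j h1 h2
    rw [theta, SimpleGraph.fromEdgeSet_adj]
    exact ⟨h1, h2⟩
  have inj : ∀ i j : Fin 6, i ≠ j → (f i : ℤ) ≠ f j := by
    intro i j hij h
    apply hij
    apply f.injective
    exact Fin.ext (by exact_mod_cast h)
  have h03 := hadj 0 3 (t 0 3 (by simp) (by decide))
  -- the two 4-cycles
  have key : ∀ x y : Fin 6, theta.Adj 3 x → theta.Adj x y → theta.Adj y 0 → x ≠ 0 → y ≠ 3 →
      (((f x : ℤ) - f 0), ((f y : ℤ) - f 0)) ∈ quads (f 0) ((f 3 : ℤ) - f 0) := by
    intro x y h1 h2 h3 h4 h5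
    unfold quads
    rw [List.mem_flatMap]
    refine ⟨(f y : ℤ) - f 0, hadj 0 y h3.symm, ?_⟩
    rw [List.mem_filter, List.mem_map]
    refine ⟨⟨(f x : ℤ) - f y, ?_, ?_⟩, ?_⟩
    · have e : (f 0 : ℤ) + ((f y : ℤ) - f 0) = f y := by ring
      rw [e]
      exact hadj y x h2.symm
    · congr 1; ring
    · have e1 : (f 0 : ℤ) + ((f 3 : ℤ) - f 0) = f 3 := by ring
      have e2 : (f x : ℤ) - f 0 - ((f 3 : ℤ) - f 0) = f x - f 3 := by ring
      have e3 : (f x : ℤ) - f 0 ≠ 0 := fun h => inj x 0 h4 (by linarith)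
      have e4 : (f y : ℤ) - f 0 ≠ (f 3 : ℤ) - f 0 := fun h => inj y 3 h5 (by linarith)
      simp only [e1, e2, List.contains_iff_mem, Bool.and_eq_true, Bool.not_eq_true',
        beq_eq_false_iff_ne]
      exact ⟨⟨hadj 3 x h1, e3⟩, e4⟩
  have k1 := key 2 1 (t 3 2 (by simp) (by decide)) (t 2 1 (by simp) (by decide))
    (t 1 0 (by simp) (by decide)) (by decide) (by decide)
  have k2 := key 4 5 (t 3 4 (by simp) (by decide)) (t 4 5 (by simp) (by decide))
    (t 5 0 (by simp) (by decide)) (by decide) (by decide)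
  rcases no_domino (f 0) _ h03 _ k1 _ k2 with h | h | h | h
  · exact inj 2 4 (by decide) (by linarith)
  · exact inj 2 5 (by decide) (by linarith)
  · exact inj 1 4 (by decide) (by linarith)
  · exact inj 1 5 (by decide) (by linarith)

/-- the neighbours in the interval, in rotational order -/
def nbl (n : ℕ) (w : Fin n) : List (Fin n) :=
  (off w).filterMap (fun d => if h : 0 ≤ (w : ℤ) + d ∧ (w : ℤ) + d < n then
    some ⟨((w : ℤ) + d).toNat, by omega⟩ else none)

theorem mem_nbl {n : ℕ} {w z : Fin n} : z ∈ nbl n w ↔ (GI n).Adj w z := by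
  unfold nbl
  rw [List.mem_filterMap, GI_adj]
  constructor
  · rintro ⟨d, hd, h⟩
    split_ifs at h with h1
    rw [Option.some.injEq] at h
    rw [← h]
    simp only
    rw [Int.toNat_of_nonneg h1.1]
    have : (w : ℤ) + d - w = d := by ring
    rwa [this]
  · intro h
    refine ⟨_, h, ?_⟩
    have e : (w : ℤ) + ((z : ℤ) - w) = z := by ring
    have h1 : 0 ≤ (w : ℤ) + ((z : ℤ) - w) ∧ (w : ℤ) + ((z : ℤ) - w) < n := by
      rw [e]; constructor
      · exact Int.natCast_nonneg _
      · exact_mod_cast z.2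
    rw [dif_pos h1]
    congr 1
    apply Fin.ext
    simp only [e, Int.toNat_natCast]

theorem nbl_nodup {n : ℕ} (w : Fin n) : (nbl n w).Nodup := by
  unfold nbl
  apply (off_nodup _).filterMap
  intro a a' b h1 h2
  split_ifs at h1 h2 with h3 h4
  · simp only [Option.mem_def, Option.some.injEq] at h1 h2
    rw [← h2] at h1
    have := congrArg Fin.val h1
    simp only at this
    omega
  all_goals simp_all

/-- labels transported along a filtered rotation -/
theorem lin_filterMap {α γ β : Type} (a b : α → β) (a' b' : γ → β) (g : α → Option γ) :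
    ∀ (l : List α) (s t : β), Lin a b s l t →
    (∀ d ∈ l, g d = none → a d = b d) →
    (∀ d ∈ l, ∀ z, g d = some z → a' z = a d ∧ b' z = b d) →
    Lin a' b' s (l.filterMap g) t
  | [], s, t, h, _, _ => h
  | d :: l, s, t, h, h1, h2 => by
    obtain ⟨h3, h4⟩ := h
    have ih := lin_filterMap a b a' b' g l (a d) t h4
      (fun e he => h1 e (List.mem_cons_of_mem _ he))
      (fun e he => h2 e (List.mem_cons_of_mem _ he))
    rcases hg : g d with _ | z
    · rw [List.filterMap_cons_none hg]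
      have h5 := h1 d (List.mem_cons_self) hg
      rw [h3, ← h5]
      exact ih
    · rw [List.filterMap_cons_some hg]
      obtain ⟨h5, h6⟩ := h2 d (List.mem_cons_self) z hg
      refine ⟨by rw [h3, h6], ?_⟩
      rw [h5]
      exact ih

theorem lin_get {α β : Type} (a b : α → β) : ∀ (l : List α) (s t : β), Lin a b s l t →
    (∀ i (h : i + 1 < l.length), a (l[i]'(by omega)) = b l[i + 1]) ∧
    (∀ h : 0 < l.length, b l[0] = s ∧ a (l[l.length - 1]'(by omega)) = t)
  | [], s, t, _ => ⟨fun i h => absurd h (by simp), fun h => absurd h (by simp)⟩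
  | z :: l, s, t, h => by
    obtain ⟨h3, h4⟩ := h
    obtain ⟨i1, i2⟩ := lin_get a b l (a z) t h4
    constructor
    · intro i hi
      rcases i with _ | i
      · have h5 : 0 < l.length := by simpa using hi
        have := (i2 h5).1
        simpa using this.symm
      · have := i1 i (by simpa using hi)
        simpa using this
    · intro _
      refine ⟨by simpa using h3.symm, ?_⟩
      rcases l with _ | ⟨y, l⟩
      · exact h4
      · have := (i2 (by simp)).2
        simpa using this

/-- for a cyclic transport, consecutive elements have equal labels -/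
theorem lin_formPerm {α β : Type} [DecidableEq α] (a b : α → β) (l : List α) (s : β)
    (hl : l.Nodup) (h : Lin a b s l s) (x : α) (hx : x ∈ l) : a x = b (l.formPerm x) := by
  obtain ⟨h1, h2⟩ := lin_get a b l s s h
  obtain ⟨i, hi, rfl⟩ := List.getElem_of_mem hx
  rw [List.formPerm_apply_getElem _ hl]
  by_cases h3 : i + 1 < l.length
  · simp only [Nat.mod_eq_of_lt h3]
    exact h1 i h3
  · have h4 : i + 1 = l.length := by omega
    simp only [h4, Nat.mod_self]
    obtain ⟨h5, h6⟩ := h2 (by omega)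
    rw [h5, ← h6]
    congr
    omega

/-- label of a face -/
def fl (n : ℕ) (t : ℤ × ℤ × ℤ) : ℤ × ℤ :=
  if t.1 < 0 then (-1, 0) else if (n : ℤ) ≤ t.2.1 then (-2, 0) else (t.2.1, t.2.2)

theorem fl_left {n : ℕ} {t : ℤ × ℤ × ℤ} (h : t.1 < 0) : fl n t = (-1, 0) := by
  unfold fl; rw [if_pos h]

theorem fl_right {n : ℕ} {t : ℤ × ℤ × ℤ} (h : 0 ≤ t.1) (h' : (n : ℤ) ≤ t.2.1) :
    fl n t = (-2, 0) := by
  unfold fl; rw [if_neg (by omega), if_pos h']

theorem fl_mid {n : ℕ} {t : ℤ × ℤ × ℤ} (h : 0 ≤ t.1) (h' : t.2.1 < (n : ℤ)) :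
    fl n t = (t.2.1, t.2.2) := by
  unfold fl; rw [if_neg (by omega), if_neg (by omega)]

theorem sh_sh (c d : ℤ) (t : ℤ × ℤ × ℤ) : sh (c + d) t = sh c (sh d t) := by
  unfold sh; simp only [add_assoc]

/-- label of the face of a dart -/
def lab (n : ℕ) (v w : Fin n) : ℤ × ℤ := fl n (sh v (info v (w - v)))

theorem Lin.map {α β γ : Type} {a b : α → β} (f : β → γ) :
    ∀ {l : List α} {s t : β}, Lin a b s l t → Lin (fun x => f (a x)) (fun x => f (b x)) (f s) l (f t)
  | [], _, _, h => congrArg f h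
  | _ :: _, _, _, h => ⟨congrArg f h.1, Lin.map f h.2⟩

theorem lab_lin {n : ℕ} (hn : 31 ≤ n) (w : Fin n) :
    ∃ s, Lin (fun z => lab n z w) (fun z => lab n w z) s (nbl n w) s := by
  refine ⟨fl n (sh w (info w ((off w).headD 0))), ?_⟩
  have h0 := (rot_lin (w : ℤ)).map (fun t => fl n (sh w t))
  unfold nbl
  refine lin_filterMap _ _ _ _ _ _ _ _ h0 ?_ ?_
  · intro d hd hg
    split_ifs at hg with h1
    have p1 := info_prop _ _ hd
    have hd' := off_symm _ _ hd
    have p2 := info_prop _ _ hd'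
    have hb := off_bound _ _ hd
    have hw := w.2
    have hw' : (w : ℤ) < n := by exact_mod_cast hw
    by_cases h2 : (w : ℤ) + d < 0
    · rw [fl_left (t := sh w (sh d (info (w + d) (-d)))) (by show (w : ℤ) + (d + _) < 0; omega),
        fl_left (t := sh w (info w d)) (by show (w : ℤ) + _ < 0; omega)]
    · have h3 : (n : ℤ) ≤ (w : ℤ) + d := by
        by_contra h4
        exact h1 ⟨by omega, by omega⟩
      rw [fl_right (t := sh w (sh d (info (w + d) (-d)))) (by show 0 ≤ (w : ℤ) + (d + _); omega)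
          (by show (n : ℤ) ≤ (w : ℤ) + (d + _); omega),
        fl_right (t := sh w (info w d)) (by show 0 ≤ (w : ℤ) + _; omega)
          (by show (n : ℤ) ≤ (w : ℤ) + _; omega)]
  · intro d hd z hg
    split_ifs at hg with h1
    rw [Option.some.injEq] at hg
    have hz : (z : ℤ) = w + d := by
      rw [← hg]
      simp only
      rw [Int.toNat_of_nonneg h1.1]
    unfold lab
    rw [hz]
    have e1 : (w : ℤ) - (w + d) = -d := by ring
    have e2 : (w : ℤ) + d - w = d := by ring
    rw [e1, e2]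
    refine ⟨?_, rfl⟩
    show fl n (sh ((w : ℤ) + d) (info (w + d) (-d))) = fl n (sh w (sh d (info (w + d) (-d))))
    rw [sh_sh]

end Pool.Agent.H47.PT
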