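import Pool.Agent.H47.PT.Lower

/-!
# The lower bound: planarity and the number of edges of the interval graphs
-/

namespace Pool.Agent.H47.PT

open Equiv.Perm

instance (n : ℕ) : DecidableRel (GI n).Adj :=
  fun v w => inferInstanceAs (Decidable (((w : ℤ) - v) ∈ off v))

/-- the rotation -/
def rot (n : ℕ) : Equiv.Perm (GI n).Dart where
  toFun d := ⟨(d.fst, (nbl n d.fst).formPerm d.snd),
    mem_nbl.1 (List.formPerm_apply_mem_of_mem (mem_nbl.2 d.adj))⟩
  invFun d := ⟨(d.fst, (nbl n d.fst).formPerm⁻¹ d.snd), by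
    apply mem_nbl.1
    show (nbl n d.fst).formPerm⁻¹ d.snd ∈ nbl n d.fst
    rw [← List.formPerm_mem_iff_mem, ← Equiv.Perm.mul_apply, mul_inv_cancel]
    exact mem_nbl.2 d.adj⟩
  left_inv d := by
    ext <;> simp
  right_inv d := by
    ext <;> simp

/-- the face permutation -/
def fac (n : ℕ) : Equiv.Perm (GI n).Dart :=
  (Function.Involutive.toPerm _ SimpleGraph.Dart.symm_involutive).trans (rot n)

theorem rot_pow (n : ℕ) (d : (GI n).Dart) (k : ℕ) :
    ((rot n ^ k) d).fst = d.fst ∧ ((rot n ^ k) d).snd = ((nbl n d.fst).formPerm ^ k) d.snd := by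
  induction k with
  | zero => exact ⟨rfl, rfl⟩
  | succ k ih =>
    rw [pow_succ', Equiv.Perm.mul_apply, pow_succ', Equiv.Perm.mul_apply]
    obtain ⟨h1, h2⟩ := ih
    constructor
    · exact h1
    · show (nbl n ((rot n ^ k) d).fst).formPerm ((rot n ^ k) d).snd = _
      rw [h1, h2]

theorem rot_trans (n : ℕ) (d d' : (GI n).Dart) (h : d.fst = d'.fst) :
    ∃ k : ℕ, (rot n ^ k) d = d' := by
  have h1 : d.snd ∈ nbl n d.fst := mem_nbl.2 d.adj
  have h2 : d'.snd ∈ nbl n d.fst := mem_nbl.2 (h ▸ d'.adj)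
  obtain ⟨i, hi, e1⟩ := List.getElem_of_mem h1
  obtain ⟨j, hj, e2⟩ := List.getElem_of_mem h2
  refine ⟨(nbl n d.fst).length - i + j, ?_⟩
  obtain ⟨h3, h4⟩ := rot_pow n d ((nbl n d.fst).length - i + j)
  ext
  · rw [h3, h]
  · rw [h4, ← e1, List.formPerm_pow_apply_getElem _ (nbl_nodup _)]
    have : (i + ((nbl n d.fst).length - i + j)) % (nbl n d.fst).length = j := by
      have : i + ((nbl n d.fst).length - i + j) = (nbl n d.fst).length + j := by omega
      rw [this, Nat.add_mod_left, Nat.mod_eq_of_lt hj]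
    simp only [this]
    rw [e2]

theorem lab_fac {n : ℕ} (hn : 31 ≤ n) (d : (GI n).Dart) :
    lab n d.fst d.snd = lab n (fac n d).fst (fac n d).snd := by
  obtain ⟨s, hs⟩ := lab_lin hn d.snd
  exact lin_formPerm _ _ _ _ (nbl_nodup _) hs d.fst (mem_nbl.2 d.adj.symm)

theorem lab_cycle {n : ℕ} (hn : 31 ≤ n) {d e : (GI n).Dart} (h : SameCycle (fac n) d e) :
    lab n d.fst d.snd = lab n e.fst e.snd := by
  obtain ⟨i, hi⟩ := h.exists_nat_pow_eq
  have : ∀ k : ℕ, lab n d.fst d.snd = lab n ((fac n ^ k) d).fst ((fac n ^ k) d).snd := by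
    intro k
    induction k with
    | zero => rfl
    | succ k ih =>
      rw [pow_succ', Equiv.Perm.mul_apply, ih]
      exact lab_fac hn _
  rw [this i, hi]

/-- the number of faces is at least the number of labels -/
theorem faces_ge {n : ℕ} (hn : 31 ≤ n) (S : Finset (ℤ × ℤ))
    (hS : ∀ s ∈ S, ∃ d : (GI n).Dart, lab n d.fst d.snd = s) :
    S.card ≤ Nat.card (Quotient (SameCycle.setoid (fac n))) := by
  choose f hf using hS
  rw [← Fintype.card_coe, ← Nat.card_eq_fintype_card]
  apply Nat.card_le_card_of_injective (fun s : S =>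
    (Quotient.mk (SameCycle.setoid (fac n)) (f s.1 s.2)))
  intro s t h
  have h1 : SameCycle (fac n) _ _ := Quotient.exact h
  have h2 := lab_cycle hn h1
  rw [hf, hf] at h2
  exact Subtype.ext h2

/-- darts with largest vertex of the face equal to `m`, complete faces -/
def fcl (m : ℤ) : List ℤ :=
  (off m).filter (fun d => decide ((info m d).2.1 = 0 ∧ 0 ≤ m + (info m d).1))

/-- backward neighbours in the interval -/
def bkl (m : ℤ) : List ℤ := (off m).filter (fun d => decide (d < 0 ∧ 0 ≤ m + d))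

theorem fcl_bkl {m : ℤ} (hm : 31 ≤ m) : (fcl m).length + 1 = (bkl m).length := by
  have h1 : fcl m = (off m).filter (fun d => decide ((info m d).2.1 = 0)) := by
    unfold fcl
    apply List.filter_congr
    intro d hd
    have := info_prop m d hd
    rw [decide_eq_decide]
    constructor
    · exact fun h => h.1
    · intro h
      exact ⟨h, by omega⟩
  have h2 : bkl m = (off m).filter (fun d => decide (d < 0)) := by
    unfold bkl
    apply List.filter_congr
    intro d hd
    have := off_bound m d hd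
    rw [decide_eq_decide]
    constructor
    · exact fun h => h.1
    · intro h
      exact ⟨h, by omega⟩
  rw [h1, h2]
  exact face_count m

theorem sum_fcl_bkl (n : ℕ) (hn : 31 ≤ n) :
    ∑ m ∈ Finset.range n, ((fcl m).length + 1) = ∑ m ∈ Finset.range n, (bkl m).length := by
  induction n, hn using Nat.le_induction with
  | base => decide +kernel
  | succ n hn ih =>
    rw [Finset.sum_range_succ, Finset.sum_range_succ, ih, fcl_bkl (by exact_mod_cast hn)]

theorem card_back {n : ℕ} (v : Fin n) :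
    (Finset.univ.filter (fun w : Fin n => w < v ∧ (((w : ℤ) - v) ∈ off v))).card =
      (bkl v).length := by
  have hnd : (bkl v).Nodup := (off_nodup v).filter _
  rw [← List.toFinset_card_of_nodup hnd]
  apply Finset.card_bij (fun (w : Fin n) _ => (w : ℤ) - v)
  · intro w hw
    rw [Finset.mem_filter] at hw
    obtain ⟨-, h1, h2⟩ := hw
    unfold bkl
    rw [List.mem_toFinset, List.mem_filter]
    refine ⟨h2, ?_⟩
    rw [decide_eq_true_eq]
    have : (w : ℕ) < v := h1
    omega
  · intro w _ w' _ h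
    apply Fin.ext
    omega
  · intro d hd
    unfold bkl at hd
    rw [List.mem_toFinset, List.mem_filter, decide_eq_true_eq] at hd
    obtain ⟨h1, h2, h3⟩ := hd
    have hv := v.2
    refine ⟨⟨((v : ℤ) + d).toNat, by omega⟩, ?_, ?_⟩
    · rw [Finset.mem_filter]
      have e : (((⟨((v : ℤ) + d).toNat, by omega⟩ : Fin n) : ℕ) : ℤ) - v = d := by
        simp only
        omega
      rw [e]
      refine ⟨Finset.mem_univ _, ?_, h1⟩
      rw [Fin.lt_def]
      simp only
      omega
    · simp only
      omega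

theorem card_edges (n : ℕ) :
    Nat.card (GI n).edgeSet = ∑ m ∈ Finset.range n, (bkl m).length := by
  classical
  rw [← Fin.sum_univ_eq_sum_range (fun m => (bkl (m : ℤ)).length) n]
  have h1 : ∑ v : Fin n, (bkl (v : ℤ)).length =
      ((Finset.univ : Finset (Fin n)).sigma (fun v =>
        Finset.univ.filter (fun w : Fin n => w < v ∧ (((w : ℤ) - v) ∈ off v)))).card := by
    rw [Finset.card_sigma]
    exact Finset.sum_congr rfl (fun v _ => (card_back v).symm)
  rw [h1, Nat.card_eq_fintype_card, ← SimpleGraph.edgeFinset_card]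
  symm
  apply Finset.card_bij (fun p _ => s(p.1, p.2))
  · rintro ⟨v, w⟩ h
    rw [Finset.mem_sigma, Finset.mem_filter] at h
    rw [SimpleGraph.mem_edgeFinset]
    exact h.2.2.2
  · rintro ⟨v, w⟩ h ⟨v', w'⟩ h' e
    rw [Finset.mem_sigma, Finset.mem_filter] at h h'
    simp only at h h' e
    rw [Sym2.eq_iff] at e
    rcases e with ⟨rfl, rfl⟩ | ⟨rfl, rfl⟩
    · rfl
    · exact absurd (h.2.2.1.trans h'.2.2.1) (lt_irrefl _)
  · intro e he
    rw [SimpleGraph.mem_edgeFinset] at he
    induction e with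
    | _ a b =>
      have hab : (GI n).Adj a b := he
      rcases lt_trichotomy a b with h | h | h
      · refine ⟨⟨b, a⟩, ?_, Sym2.eq_swap⟩
        rw [Finset.mem_sigma, Finset.mem_filter]
        exact ⟨Finset.mem_univ _, Finset.mem_univ _, h, hab.symm⟩
      · exact absurd h hab.ne
      · refine ⟨⟨a, b⟩, ?_, rfl⟩
        rw [Finset.mem_sigma, Finset.mem_filter]
        exact ⟨Finset.mem_univ _, Finset.mem_univ _, h, hab⟩

/-- a spanning tree of the beginning -/
def plist : List (ℕ × ℕ) :=
  [(11, 18), (9, 18), (15, 18), (19, 18), (24, 18), (30, 18), (20, 18), (21, 11), (26, 11),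
   (17, 11), (14, 11), (10, 11), (0, 9), (25, 24), (29, 24), (35, 26), (8, 10), (6, 10), (5, 10),
   (13, 25), (23, 25), (27, 25), (28, 35), (16, 8), (12, 8), (7, 8), (4, 13), (3, 13), (1, 13),
   (22, 13), (2, 7)]

def chk : List ℕ → List (ℕ × ℕ) → Bool
  | _, [] => true
  | seen, (x, y) :: l => seen.contains y && (off x).contains ((y : ℤ) - x) && decide (y < 100) &&
      chk (x :: seen) l

theorem chk_reach {n : ℕ} (hn : 100 ≤ n) : ∀ (l : List (ℕ × ℕ)) (seen : List ℕ), chk seen l = true →
    (∀ y ∈ seen, ∀ h : y < n, (GI n).Reachable ⟨y, h⟩ ⟨18, by omega⟩) →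
    ∀ p ∈ l, ∀ h : p.1 < n, (GI n).Reachable ⟨p.1, h⟩ ⟨18, by omega⟩
  | [], _, _, _, p, hp => absurd hp (by simp)
  | (x, y) :: l, seen, hc, hs, p, hp => by
    unfold chk at hc
    simp only [Bool.and_eq_true, List.contains_iff_mem, decide_eq_true_eq] at hc
    obtain ⟨⟨⟨h1, h2⟩, h3⟩, h4⟩ := hc
    have hx : ∀ h : x < n, (GI n).Reachable ⟨x, h⟩ ⟨18, by omega⟩ := by
      intro h
      have hadj : (GI n).Adj ⟨x, h⟩ ⟨y, by omega⟩ := h2
      exact hadj.reachable.trans (hs y h1 _)
    rw [List.mem_cons] at hp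
    rcases hp with rfl | hp
    · exact hx
    · apply chk_reach hn l (x :: seen) h4 _ p hp
      intro z hz h
      rw [List.mem_cons] at hz
      rcases hz with rfl | hz
      · exact hx h
      · exact hs z hz h

theorem reach {n : ℕ} (hn : 121 ≤ n) (v : ℕ) : ∀ h : v < n,
    (GI n).Reachable ⟨v, h⟩ ⟨18, by omega⟩ := by
  induction v using Nat.strong_induction_on with
  | _ v ih =>
    intro h
    by_cases hv : v < 31
    · by_cases h18 : v = 18
      · subst h18
        exact SimpleGraph.Reachable.refl _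
      · have h1 : chk [18] plist = true := by decide +kernel
        have h2 : ∀ y ∈ [18], ∀ h : y < n, (GI n).Reachable ⟨y, h⟩ ⟨18, by omega⟩ := by
          intro y hy h
          rw [List.mem_singleton] at hy
          subst hy
          exact SimpleGraph.Reachable.refl _
        have h3 : ∃ p ∈ plist, p.1 = v := by
          have : ∀ v ∈ List.range 31, v ≠ 18 → ∃ p ∈ plist, p.1 = v := by decide +kernel
          exact this v (List.mem_range.2 hv) h18
        obtain ⟨p, hp, rfl⟩ := h3
        exact chk_reach (by omega) plist [18] h1 h2 p hp h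
    · obtain ⟨d, hd, hd0, -⟩ := exists_right v
      have hb := off_bound _ _ hd
      have h1 : ((v : ℤ) + d).toNat < v := by omega
      have hadj : (GI n).Adj ⟨v, h⟩ ⟨((v : ℤ) + d).toNat, by omega⟩ := by
        show ((((v : ℤ) + d).toNat : ℤ) - v) ∈ off v
        have : (((v : ℤ) + d).toNat : ℤ) - v = d := by omega
        rwa [this]
      exact hadj.reachable.trans (ih _ h1 _)

theorem GI_comp {n : ℕ} (hn : 121 ≤ n) : Nat.card (GI n).ConnectedComponent ≤ 1 := by
  have h1 : (GI n).Preconnected := fun u v => (reach hn u u.2).trans (reach hn v v.2).symm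
  have := h1.subsingleton_connectedComponent
  exact Finite.card_le_one_iff_subsingleton.2 this

/-- the set of labels -/
def labs (n : ℕ) : Finset (ℤ × ℤ) :=
  insert (-1, 0) (insert (-2, 0) ((Finset.range n).biUnion (fun m =>
    ((fcl m).toFinset).image (fun d => ((m : ℤ), (m : ℤ) + d)))))

theorem card_labs (n : ℕ) : (labs n).card = 2 + ∑ m ∈ Finset.range n, (fcl m).length := by
  unfold labs
  have hneg : ∀ a b : ℤ, a < 0 → (a, b) ∉ ((Finset.range n).biUnion (fun m : ℕ =>
    ((fcl m).toFinset).image (fun d => ((m : ℤ), (m : ℤ) + d)))) := by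
    intro a b ha h
    rw [Finset.mem_biUnion] at h
    obtain ⟨m, _, h⟩ := h
    rw [Finset.mem_image] at h
    obtain ⟨d, _, h⟩ := h
    rw [Prod.mk.injEq] at h
    omega
  rw [Finset.card_insert_of_notMem, Finset.card_insert_of_notMem, Finset.card_biUnion]
  · have : ∀ m ∈ Finset.range n, (((fcl (m : ℤ)).toFinset).image
        (fun d => ((m : ℤ), (m : ℤ) + d))).card = (fcl m).length := by
      intro m _
      have hnd : (fcl m).Nodup := (off_nodup m).filter _
      rw [Finset.card_image_of_injective, List.toFinset_card_of_nodup hnd]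
      · intro d e h
        simp only [Prod.mk.injEq, true_and] at h
        omega
    rw [Finset.sum_congr rfl this]
    ring
  · intro m _ m' _ hne
    rw [Function.onFun, Finset.disjoint_left]
    intro x hx hx'
    rw [Finset.mem_image] at hx hx'
    obtain ⟨d, _, rfl⟩ := hx
    obtain ⟨d', _, h⟩ := hx'
    rw [Prod.mk.injEq] at h
    exact hne (by omega)
  · exact hneg _ _ (by norm_num)
  · rw [Finset.mem_insert, not_or]
    exact ⟨by decide, hneg _ _ (by norm_num)⟩

theorem labs_real {n : ℕ} (hn : 100 ≤ n) : ∀ s ∈ labs n, ∃ d : (GI n).Dart,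
    lab n d.fst d.snd = s := by
  intro s hs
  unfold labs at hs
  rw [Finset.mem_insert, Finset.mem_insert, Finset.mem_biUnion] at hs
  rcases hs with rfl | rfl | ⟨m, hm, hs⟩
  · have hadj : (GI n).Adj ⟨0, by omega⟩ ⟨9, by omega⟩ := by
      show (((9 : ℕ) : ℤ) - ((0 : ℕ) : ℤ)) ∈ off ((0 : ℕ) : ℤ)
      decide +kernel
    refine ⟨⟨(_, _), hadj⟩, ?_⟩
    apply fl_left
    show (((0 : ℕ) : ℤ) + (info ((0 : ℕ) : ℤ) (((9 : ℕ) : ℤ) - ((0 : ℕ) : ℤ))).1) < 0
    decide +kernel
  · obtain ⟨d, hd, hd0, hd1⟩ := exists_right ((n - 1 : ℕ) : ℤ)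
    have hb := off_bound _ _ hd
    have hp := info_prop _ _ hd
    have h1 : (((n - 1 : ℕ) : ℤ) + d).toNat < n := by omega
    have h2 : ((((n - 1 : ℕ) : ℤ) + d).toNat : ℤ) - ((n - 1 : ℕ) : ℤ) = d := by omega
    have hadj : (GI n).Adj ⟨n - 1, by omega⟩ ⟨(((n - 1 : ℕ) : ℤ) + d).toNat, h1⟩ := by
      show (((((n - 1 : ℕ) : ℤ) + d).toNat : ℤ) - ((n - 1 : ℕ) : ℤ)) ∈ off ((n - 1 : ℕ) : ℤ)
      rwa [h2]
    refine ⟨⟨(_, _), hadj⟩, ?_⟩
    apply fl_right
    · show 0 ≤ ((n - 1 : ℕ) : ℤ) + (info ((n - 1 : ℕ) : ℤ)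
        (((((n - 1 : ℕ) : ℤ) + d).toNat : ℤ) - ((n - 1 : ℕ) : ℤ))).1
      rw [h2]
      omega
    · show (n : ℤ) ≤ ((n - 1 : ℕ) : ℤ) + (info ((n - 1 : ℕ) : ℤ)
        (((((n - 1 : ℕ) : ℤ) + d).toNat : ℤ) - ((n - 1 : ℕ) : ℤ))).2.1
      rw [h2]
      omega
  · rw [Finset.mem_range] at hm
    rw [Finset.mem_image] at hs
    obtain ⟨d, hd, rfl⟩ := hs
    rw [List.mem_toFinset] at hd
    unfold fcl at hd
    rw [List.mem_filter, decide_eq_true_eq] at hd
    obtain ⟨hd, hd0, hd1⟩ := hd
    have hp := info_prop _ _ hd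
    have h0 : 0 ≤ (m : ℤ) + d := by omega
    have h1 : ((m : ℤ) + d).toNat < n := by omega
    have h2 : (((m : ℤ) + d).toNat : ℤ) - m = d := by omega
    have hadj : (GI n).Adj ⟨m, hm⟩ ⟨((m : ℤ) + d).toNat, h1⟩ := by
      show ((((m : ℤ) + d).toNat : ℤ) - m) ∈ off m
      rwa [h2]
    refine ⟨⟨(_, _), hadj⟩, ?_⟩
    show fl n (sh m (info m ((((m : ℤ) + d).toNat : ℤ) - m))) = _
    rw [h2, fl_mid]
    · show ((m : ℤ) + (info m d).2.1, (m : ℤ) + (info m d).2.2) = _
      rw [hd0, hp.2.2.2.2.2 hd0, add_zero]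
    · exact hd1
    · show (m : ℤ) + (info m d).2.1 < n
      omega

/-- the interval graphs are planar -/
theorem GI_planar {n : ℕ} (hn : 121 ≤ n) : IsPlanar (GI n) := by
  refine ⟨rot n, fac n, fun d => rfl, rot_trans n, fun d => rfl, ?_⟩
  apply le_antisymm
  · exact genus_nonneg (rot n) (fac n) (fun d => rfl) (rot_trans n) (fun d => rfl)
  · have h1 := faces_ge (by omega) (labs n) (labs_real (by omega))
    rw [card_labs] at h1
    have h2 := sum_fcl_bkl n (by omega)
    rw [Finset.sum_add_distrib, Finset.sum_const, Finset.card_range, smul_eq_mul, mul_one] at h2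
    have h3 := GI_comp hn
    have h4 : Nat.card (Fin n) = n := by simp
    rw [card_edges, ← h2, h4]
    omega

/-- 45 backward edges per period -/
theorem period (v : ℤ) : ((List.range 17).map
    (fun j : ℕ => ((off (v + j)).filter (fun d => decide (d < 0))).length)).sum = 45 := by
  apply all_mod (fun v => ((List.range 17).map
    (fun j : ℕ => ((off (v + j)).filter (fun d => decide (d < 0))).length)).sum = 45) _ _ v
  · intro v h
    simp only [off_add_mod] at h
    exact h
  · decide +kernel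

theorem edges_ge (n : ℕ) (hn : 100 ≤ n) :
    45 * n ≤ 17 * ∑ m ∈ Finset.range n, (bkl m).length + 480 := by
  induction n using Nat.strong_induction_on with
  | _ n ih =>
    by_cases h : n < 117
    · have : ∀ n ∈ List.range 117, 100 ≤ n →
          45 * n ≤ 17 * ∑ m ∈ Finset.range n, (bkl m).length + 480 := by decide +kernel
      exact this n (List.mem_range.2 h) hn
    · obtain ⟨k, rfl⟩ : ∃ k, n = k + 17 := ⟨n - 17, by omega⟩
      have h1 := ih k (by omega) (by omega)
      rw [Finset.sum_range_add]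
      have h2 : ∑ j ∈ Finset.range 17, (bkl ((k + j : ℕ) : ℤ)).length = 45 := by
        rw [← period k, ← List.sum_toFinset _ (List.nodup_range)]
        apply Finset.sum_congr
        · ext; simp
        · intro j _
          congr 1
          unfold bkl
          push_cast
          apply List.filter_congr
          intro d hd
          have := off_bound _ _ hd
          rw [decide_eq_decide]
          omega
      rw [h2]
      omega

end Pool.Agent.H47.PT
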