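import Mathlib

/-!
# Local structure of domino-free maps

`RS G N` : `N a b c` says that in the face containing the dart `a → b` the next dart is `b → c`
(for a rotation system of the graph `G`).  `Tri N a b c` : `a → b → c → a` is a triangular face.
-/

namespace Pool.Agent.H47.PT

variable {V : Type}

/-- abstract face relation of a rotation system -/
structure RS (G : SimpleGraph V) (N : V → V → V → Prop) : Prop where
  adjl : ∀ {a b c}, N a b c → G.Adj a b
  adjr : ∀ {a b c}, N a b c → G.Adj b c
  tot : ∀ {a b}, G.Adj a b → ∃ c, N a b c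
  tot' : ∀ {b c}, G.Adj b c → ∃ a, N a b c
  fn : ∀ {a b c c'}, N a b c → N a b c' → c = c'
  inj : ∀ {a a' b c}, N a b c → N a' b c → a = a'
  tr : ∀ (b : V) (S : Finset V), (∀ x ∈ S, ∀ y, N x b y → y ∈ S) → ∀ x ∈ S, G.Adj b x →
    ∀ y, G.Adj b y → y ∈ S
  tr' : ∀ (b : V) (S : Finset V), (∀ x ∈ S, ∀ y, N y b x → y ∈ S) → ∀ x ∈ S, G.Adj b x →
    ∀ y, G.Adj b y → y ∈ S

theorem RS.mirror {G : SimpleGraph V} {N : V → V → V → Prop} (h : RS G N) :
    RS G (fun a b c => N c b a) where
  adjl := fun h' => (h.adjr h').symm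
  adjr := fun h' => (h.adjl h').symm
  tot := fun h' => h.tot' h'.symm
  tot' := fun h' => h.tot h'.symm
  fn := fun h1 h2 => h.inj h1 h2
  inj := fun h1 h2 => h.fn h1 h2
  tr := fun b S h1 => h.tr' b S h1
  tr' := fun b S h1 => h.tr b S h1

/-- triangular face -/
def Tri (N : V → V → V → Prop) (a b c : V) : Prop := N a b c ∧ N b c a ∧ N c a b

theorem Tri.rot {N : V → V → V → Prop} {a b c : V} (h : Tri N a b c) : Tri N b c a :=
  ⟨h.2.1, h.2.2, h.1⟩

theorem Tri.rot' {N : V → V → V → Prop} {a b c : V} (h : Tri N a b c) : Tri N c a b :=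
  ⟨h.2.2, h.1, h.2.1⟩

/-- the dart `a → b` lies on a triangular face -/
def TD (N : V → V → V → Prop) (a b : V) : Prop := ∃ c, Tri N a b c

/-- the component of `a` has at least six vertices -/
def Big (G : SimpleGraph V) (a : V) : Prop :=
  ∀ S : Finset V, a ∈ S → (∀ x ∈ S, ∀ y, G.Adj x y → y ∈ S) → 6 ≤ S.card

theorem Big.adj {G : SimpleGraph V} {a b : V} (h : Big G a) (hab : G.Adj a b) : Big G b :=
  fun S hb hS => h S (hS b hb a hab.symm) hS

/-- no two 4-cycles sharing exactly one edge (domino) -/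
def DomFree (G : SimpleGraph V) : Prop :=
  ∀ u v a b c d : V, G.Adj u v → G.Adj v a → G.Adj a b → G.Adj b u → G.Adj v c → G.Adj c d →
    G.Adj d u → u ≠ a → v ≠ b → u ≠ c → v ≠ d → a ≠ c → a ≠ d → b ≠ c → b ≠ d → False

section
variable {G : SimpleGraph V} {N : V → V → V → Prop}

theorem nb2 [DecidableEq V] (h : RS G N) {b x y : V} (h1 : N x b y) (h2 : N y b x) {z : V}
    (hz : G.Adj b z) : z = x ∨ z = y := by
  have := h.tr b {x, y} (by
    intro u hu w hw
    simp only [Finset.mem_insert, Finset.mem_singleton] at hu ⊢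
    rcases hu with rfl | rfl
    · right; exact h.fn hw h1
    · left; exact h.fn hw h2) x (by simp) (h.adjl h1).symm z hz
  simpa using this

theorem nb3 [DecidableEq V] (h : RS G N) {b x y z : V} (h1 : N x b y) (h2 : N y b z)
    (h3 : N z b x) {w : V} (hz : G.Adj b w) : w = x ∨ w = y ∨ w = z := by
  have := h.tr b {x, y, z} (by
    intro u hu w hw
    simp only [Finset.mem_insert, Finset.mem_singleton] at hu ⊢
    rcases hu with rfl | rfl | rfl
    · right; left; exact h.fn hw h1
    · right; right; exact h.fn hw h2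
    · left; exact h.fn hw h3) x (by simp) (h.adjl h1).symm w hz
  simpa using this

theorem nb4 [DecidableEq V] (h : RS G N) {b x y z t : V} (h1 : N x b y) (h2 : N y b z)
    (h3 : N z b t) (h4 : N t b x) {w : V} (hz : G.Adj b w) :
    w = x ∨ w = y ∨ w = z ∨ w = t := by
  have := h.tr b {x, y, z, t} (by
    intro u hu w hw
    simp only [Finset.mem_insert, Finset.mem_singleton] at hu ⊢
    rcases hu with rfl | rfl | rfl | rfl
    · right; left; exact h.fn hw h1
    · right; right; left; exact h.fn hw h2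
    · right; right; right; exact h.fn hw h3
    · left; exact h.fn hw h4) x (by simp) (h.adjl h1).symm w hz
  simpa using this

/-- two triangular faces on the two sides of an edge have different apexes -/
theorem apex_ne [DecidableEq V] (h : RS G N) {a b c x : V} (hB : Big G a) (h1 : Tri N a b c)
    (h2 : Tri N b a x) : x ≠ c := by
  rintro rfl
  have h3 := hB {a, b, x} (by simp) (by
    intro u hu w hw
    simp only [Finset.mem_insert, Finset.mem_singleton] at hu ⊢
    rcases hu with rfl | rfl | rfl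
    · rcases nb2 h h1.2.2 h2.1 hw with rfl | rfl <;> simp
    · rcases nb2 h h1.1 h2.2.2 hw with rfl | rfl <;> simp
    · rcases nb2 h h1.2.1 h2.2.1 hw with rfl | rfl <;> simp)
  have := Finset.card_le_three (a := a) (b := b) (c := x)
  omega

/-- five vertices cannot be closed under adjacency -/
theorem big5 [DecidableEq V] {a b c d e : V} (hB : Big G a)
    (ha : ∀ y, G.Adj a y → y ∈ ({a, b, c, d, e} : Finset V))
    (hb : ∀ y, G.Adj b y → y ∈ ({a, b, c, d, e} : Finset V))
    (hc : ∀ y, G.Adj c y → y ∈ ({a, b, c, d, e} : Finset V))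
    (hd : ∀ y, G.Adj d y → y ∈ ({a, b, c, d, e} : Finset V))
    (he : ∀ y, G.Adj e y → y ∈ ({a, b, c, d, e} : Finset V)) : False := by
  have h3 := hB {a, b, c, d, e} (by simp) (by
    intro u hu w hw
    rw [Finset.mem_insert, Finset.mem_insert, Finset.mem_insert, Finset.mem_insert,
      Finset.mem_singleton] at hu
    rcases hu with rfl | rfl | rfl | rfl | rfl
    · exact ha w hw
    · exact hb w hw
    · exact hc w hw
    · exact hd w hw
    · exact he w hw)
  have := Finset.card_le_five (a := a) (b := b) (c := c) (d := d) (e := e)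
  omega

/-- the main use of domino-freeness: a path of four triangles -/
theorem path4 (hD : DomFree G) {u v y z s t : V} (huv : G.Adj u v)
    (huy : G.Adj u y) (hvy : G.Adj v y) (huz : G.Adj u z) (hvz : G.Adj v z)
    (hs : G.Adj y s) (hs' : G.Adj u s ∨ G.Adj v s)
    (ht : G.Adj z t) (ht' : G.Adj u t ∨ G.Adj v t)
    (hyz : y ≠ z) (hsu : s ≠ u) (hsv : s ≠ v) (htu : t ≠ u) (htv : t ≠ v) :
    s = z ∨ t = y ∨ s = t := by
  by_contra hcon
  push Not at hcon
  obtain ⟨h1, h2, h3⟩ := hcon
  rcases hs' with hs' | hs' <;> rcases ht' with ht' | ht'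
  · exact hD u v y s z t huv hvy hs hs'.symm hvz ht ht'.symm huy.ne hsv.symm huz.ne htv.symm
      hyz h2.symm h1 h3
  · exact hD u v y s t z huv hvy hs hs'.symm ht' ht.symm huz.symm huy.ne hsv.symm htu.symm
      hvz.ne h2.symm hyz h3 h1
  · exact hD u v s y z t huv hs' hs.symm huy.symm hvz ht ht'.symm hsu.symm hvy.ne huz.ne htv.symm
      h1 h3 hyz h2.symm
  · exact hD u v s y t z huv hs' hs.symm huy.symm ht' ht.symm huz.symm hsu.symm hvy.ne htu.symm
      hvz.ne h3 h1 h2.symm hyz

end

end Pool.Agent.H47.PT
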