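import Mathlib

/-!
# A periodic domino-free map: the table

The infinite map has vertex set `ℤ` and is invariant under translation by `17`.  The row of
`v` (depending on `v mod 17`) lists, in rotational order, the darts `v → v + d` as
`(d, lo, hi, nx)`: the face of this dart has smallest vertex `v + lo`, largest vertex `v + hi`, and
the vertex following the largest vertex on this face is `v + nx`.
-/

namespace Pool.Agent.H47.PT

/-- the table -/
def rows : List (List (ℤ × ℤ × ℤ × ℤ)) := [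
  [(-3, -3, 9, 0), (-6, -6, 0, -6), (9, -6, 9, -6)],
  [(-7, -7, 2, 0), (-9, -27, 0, -9), (-3, -9, 0, -3), (1, -3, 1, -3), (6, 0, 6, 1), (12, 0, 27, 6), (2, 0, 12, 0)],
  [(-4, -4, 0, -4), (5, -4, 5, -4), (-1, -1, 5, 0)],
  [(-9, -9, 1, 0), (-2, -9, 0, -2), (10, -2, 10, -2), (1, 0, 10, 0)],
  [(-10, -10, 9, 0), (-1, -10, 0, -1), (9, -1, 9, -1)],
  [(-9, -9, 1, 0), (5, -9, 5, -9), (1, 0, 5, 0)],
  [(-10, -10, 2, 0), (-1, -10, 0, -1), (4, -1, 4, -1), (2, 0, 4, 0)],
  [(-6, -6, 21, 0), (-5, -6, 0, -5), (-9, -9, 0, -9), (-15, -15, 0, -15), (1, -30, 1, -11), (5, 0, 5, 1), (21, 0, 21, 5)],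
  [(-12, -31, 0, -12), (-2, -12, 0, -2), (2, -2, 2, -2), (20, 0, 27, 18), (8, 0, 20, 0), (4, 0, 8, 0), (-1, -1, 4, 0)],
  [(-16, -18, 9, 0), (-12, -16, 0, -12), (-9, -12, 0, -9), (-15, -15, 0, -15), (15, -15, 16, 4), (6, 0, 15, 0), (9, 0, 9, 6)],
  [(-2, -2, 25, 16), (-4, -4, 0, -4), (-5, -5, 0, -5), (-14, -14, 0, -14), (1, -26, 1, -20), (4, 0, 4, 1), (16, 0, 16, 4)],
  [(-21, -27, 0, -21), (-16, -21, 0, -16), (-12, -16, 0, -12), (-20, -20, 0, -20), (7, -20, 7, -2), (9, 0, 9, 7), (10, 0, 10, 9), (19, 0, 19, 10), (15, 0, 31, 19), (6, 0, 15, 0), (3, 0, 6, 0), (-1, -1, 3, 0)],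
  [(-5, -5, 16, 0), (-4, -5, 0, -4), (4, -4, 4, -4), (16, 0, 16, 4)],
  [(-19, -19, 12, 0), (-9, -19, 0, -9), (-10, -10, 0, -10), (-12, -12, 0, -12), (14, -12, 15, -6), (9, 0, 14, 0), (10, 0, 10, 9), (12, 0, 12, 10)],
  [(-4, -4, 12, 0), (-3, -4, 0, -3), (3, -3, 3, -3), (12, 0, 12, 3)],
  [(-6, -6, 3, 0), (9, -6, 9, -6), (4, 0, 9, 0), (3, 0, 4, 0)],
  [(-4, -4, 12, 0), (-8, -8, 0, -8), (12, -8, 12, -8)]]

/-- the row of a vertex -/
def row (v : ℤ) : List (ℤ × ℤ × ℤ × ℤ) := rows.getD (v % 17).toNat []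

/-- the offsets of the neighbours, in rotational order -/
def off (v : ℤ) : List ℤ := (row v).map (fun e => e.1)

/-- face data of the dart `v → v + d` (relative to `v`) -/
def info (v d : ℤ) : ℤ × ℤ × ℤ :=
  match (row v).find? (fun e => e.1 == d) with
  | some e => e.2
  | none => (0, 0, 0)

/-- translate face data -/
def sh (d : ℤ) (t : ℤ × ℤ × ℤ) : ℤ × ℤ × ℤ := (d + t.1, d + t.2.1, d + t.2.2)

theorem row_mod (v : ℤ) : row (v % 17) = row v := by
  unfold row; rw [Int.emod_emod_of_dvd _ (dvd_refl _)]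

theorem row_add_mod (v d : ℤ) : row (v % 17 + d) = row (v + d) := by
  unfold row; rw [Int.emod_add_emod]

theorem off_mod (v : ℤ) : off (v % 17) = off v := by
  unfold off; rw [row_mod]

theorem off_add_mod (v d : ℤ) : off (v % 17 + d) = off (v + d) := by
  unfold off; rw [row_add_mod]

theorem info_mod (v d : ℤ) : info (v % 17) d = info v d := by
  unfold info; rw [row_mod]

theorem info_add_mod (v d e : ℤ) : info (v % 17 + d) e = info (v + d) e := by
  unfold info; rw [row_add_mod]

/-- reduction of statements about all vertices to `0, ..., 16` -/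
theorem all_mod (P : ℤ → Prop) (h : ∀ v, P (v % 17) → P v)
    (h' : ∀ r ∈ List.range 17, P (r : ℤ)) (v : ℤ) : P v := by
  apply h
  have h1 := Int.emod_nonneg v (b := 17) (by norm_num)
  have h2 := Int.emod_lt_of_pos v (b := 17) (by norm_num)
  obtain ⟨r, hr⟩ := Int.eq_ofNat_of_zero_le h1
  rw [hr]
  exact h' r (by rw [List.mem_range]; omega)

/-- label transport along a rotation: `s` is the label before the first element, `t` after the
last one, `b`/`a` are the labels before/after an element -/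
def Lin {α β : Type} (a b : α → β) : β → List α → β → Prop
  | s, [], t => s = t
  | s, z :: l, t => s = b z ∧ Lin a b (a z) l t

instance {α β : Type} [DecidableEq β] (a b : α → β) : ∀ (s : β) (l : List α) (t : β),
    Decidable (Lin a b s l t)
  | s, [], t => by unfold Lin; infer_instance
  | s, z :: l, t => by
      unfold Lin
      exact @instDecidableAnd _ _ _ (instDecidableLinOfDecidableEq a b (a z) l t)

/-- symmetry of adjacency -/
theorem off_symm (v d : ℤ) (h : d ∈ off v) : -d ∈ off (v + d) := by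
  revert d
  apply all_mod (fun v => ∀ d ∈ off v, -d ∈ off (v + d)) _ _ v
  · intro v h d hd
    rw [off_mod] at h
    have := h d hd
    rwa [off_add_mod] at this
  · decide +kernel

theorem off_ne (v : ℤ) : (0 : ℤ) ∉ off v := by
  apply all_mod (fun v => (0 : ℤ) ∉ off v) _ _ v
  · intro v h
    rwa [off_mod] at h
  · decide +kernel

theorem off_nodup (v : ℤ) : (off v).Nodup := by
  apply all_mod (fun v => (off v).Nodup) _ _ v
  · intro v h
    rwa [off_mod] at h
  · decide +kernel

theorem off_bound (v : ℤ) : ∀ d ∈ off v, -21 ≤ d ∧ d ≤ 21 := by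
  apply all_mod (fun v => ∀ d ∈ off v, -21 ≤ d ∧ d ≤ 21) _ _ v
  · intro v h
    rwa [off_mod] at h
  · decide +kernel

/-- basic properties of the face data -/
theorem info_prop (v : ℤ) : ∀ d ∈ off v, (info v d).1 ≤ 0 ∧ (info v d).1 ≤ d ∧
    0 ≤ (info v d).2.1 ∧ d ≤ (info v d).2.1 ∧ (info v d).2.1 - (info v d).1 ≤ 31 ∧
    ((info v d).2.1 = 0 → (info v d).2.2 = d) := by
  apply all_mod (fun v => ∀ d ∈ off v, (info v d).1 ≤ 0 ∧ (info v d).1 ≤ d ∧
    0 ≤ (info v d).2.1 ∧ d ≤ (info v d).2.1 ∧ (info v d).2.1 - (info v d).1 ≤ 31 ∧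
    ((info v d).2.1 = 0 → (info v d).2.2 = d)) _ _ v
  · intro v h
    simp only [off_mod, info_mod] at h
    exact h
  · decide +kernel

/-- the face data are consistent: the face of `w + d → w` is the face of the next dart at `w` -/
theorem rot_lin (w : ℤ) : Lin (fun d => sh d (info (w + d) (-d))) (fun d => info w d)
    (info w ((off w).headD 0)) (off w) (info w ((off w).headD 0)) := by
  apply all_mod (fun w => Lin (fun d => sh d (info (w + d) (-d))) (fun d => info w d)
    (info w ((off w).headD 0)) (off w) (info w ((off w).headD 0))) _ _ w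
  · intro v h
    simp only [off_mod, info_mod, info_add_mod] at h
    exact h
  · decide +kernel

/-- backward degree minus number of faces with largest vertex `v` is one -/
theorem face_count (v : ℤ) : ((off v).filter (fun d => decide ((info v d).2.1 = 0))).length + 1 =
    ((off v).filter (fun d => decide (d < 0))).length := by
  apply all_mod (fun v => ((off v).filter (fun d => decide ((info v d).2.1 = 0))).length + 1 =
    ((off v).filter (fun d => decide (d < 0))).length) _ _ v
  · intro v h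
    simp only [off_mod, info_mod] at h
    exact h
  · decide +kernel

theorem exists_right (v : ℤ) : ∃ d ∈ off v, d < 0 ∧ 1 ≤ (info v d).2.1 := by
  apply all_mod (fun v => ∃ d ∈ off v, d < 0 ∧ 1 ≤ (info v d).2.1) _ _ v
  · intro v h
    simp only [off_mod, info_mod] at h
    exact h
  · decide +kernel

/-- pairs `(x, y)` of offsets such that `u, u + d, u + x, u + y` is a 4-cycle -/
def quads (u d : ℤ) : List (ℤ × ℤ) :=
  (off u).flatMap fun y => (((off (u + y)).map (fun z => (y + z, y))).filter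
    (fun p => (off (u + d)).contains (p.1 - d) && !(p.1 == 0) && !(p.2 == d)))

theorem quads_mod (u d : ℤ) : quads (u % 17) d = quads u d := by
  unfold quads
  simp only [off_mod, off_add_mod]

theorem no_domino (u : ℤ) : ∀ d ∈ off u, ∀ p ∈ quads u d, ∀ q ∈ quads u d,
    p.1 = q.1 ∨ p.1 = q.2 ∨ p.2 = q.1 ∨ p.2 = q.2 := by
  apply all_mod (fun u => ∀ d ∈ off u, ∀ p ∈ quads u d, ∀ q ∈ quads u d,
    p.1 = q.1 ∨ p.1 = q.2 ∨ p.2 = q.1 ∨ p.2 = q.2) _ _ u
  · intro v h
    simp only [off_mod, quads_mod] at h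
    exact h
  · decide +kernel

end Pool.Agent.H47.PT
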