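import Pool.Agent.H47.PT.Charge3
import Pool.Agent.H47.PT.Defs

/-!
# The upper bound `17 e ≤ 45 n`
-/

namespace Pool.Agent.H47.PT

open Classical

theorem domFree_of_free {V : Type} {G : SimpleGraph V} (h : theta.Free G) : DomFree G := by
  intro u v a b c d huv hva hab hbu hvc hcd hdu n1 n2 n3 n4 n5 n6 n7 n8
  apply h
  let f : Fin 6 → V := ![u, b, a, v, c, d]
  have hf : ∀ i j : Fin 6, theta.Adj i j → G.Adj (f i) (f j) := by
    intro i j hij
    rw [theta, SimpleGraph.fromEdgeSet_adj] at hij
    obtain ⟨hij, -⟩ := hij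
    simp only [Set.mem_insert_iff, Set.mem_singleton_iff, Sym2.eq_iff] at hij
    rcases hij with (⟨rfl, rfl⟩ | ⟨rfl, rfl⟩) | (⟨rfl, rfl⟩ | ⟨rfl, rfl⟩) |
      (⟨rfl, rfl⟩ | ⟨rfl, rfl⟩) | (⟨rfl, rfl⟩ | ⟨rfl, rfl⟩) | (⟨rfl, rfl⟩ | ⟨rfl, rfl⟩) |
      (⟨rfl, rfl⟩ | ⟨rfl, rfl⟩) | (⟨rfl, rfl⟩ | ⟨rfl, rfl⟩)
    · exact hbu.symm
    · exact hbu
    · exact hab.symm
    · exact hab
    · exact hva.symm
    · exact hva
    · exact hvc
    · exact hvc.symm
    · exact hcd
    · exact hcd.symm
    · exact hdu
    · exact hdu.symm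
    · exact huv
    · exact huv.symm
  have hinj : Function.Injective f := by
    have e1 := hva.ne
    have e2 := hab.ne
    have e3 := hbu.ne
    have e4 := hvc.ne
    have e5 := hcd.ne
    have e6 := hdu.ne
    have e7 := huv.ne
    intro i j hij
    fin_cases i <;> fin_cases j <;> simp [f] at hij ⊢ <;>
      first
        | exact e1 hij | exact e2 hij | exact e3 hij | exact e4 hij | exact e5 hij | exact e6 hij
        | exact e7 hij | exact e1 hij.symm | exact e2 hij.symm | exact e3 hij.symm
        | exact e4 hij.symm | exact e5 hij.symm | exact e6 hij.symm | exact e7 hij.symm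
        | exact n1 hij | exact n2 hij | exact n3 hij | exact n4 hij | exact n5 hij | exact n6 hij
        | exact n7 hij | exact n8 hij | exact n1 hij.symm | exact n2 hij.symm
        | exact n3 hij.symm | exact n4 hij.symm | exact n5 hij.symm | exact n6 hij.symm
        | exact n7 hij.symm | exact n8 hij.symm
  exact ⟨⟨⟨f, fun {i j} hij => hf i j hij⟩, hinj⟩⟩

section
variable {V : Type} [Fintype V] {G : SimpleGraph V} {φ : Equiv.Perm G.Dart}

/-- length of the face of a dart -/
noncomputable def len (φ : Equiv.Perm G.Dart) (d : G.Dart) : ℕ :=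
  (Finset.univ.filter (fun e : G.Dart =>
    (Quotient.mk (Equiv.Perm.SameCycle.setoid φ) e) =
      (Quotient.mk (Equiv.Perm.SameCycle.setoid φ) d))).card

theorem card_faces :
    (Nat.card (Quotient (Equiv.Perm.SameCycle.setoid φ)) : ℚ) = ∑ d : G.Dart, 1 / (len φ d : ℚ) := by
  haveI : Fintype (Quotient (Equiv.Perm.SameCycle.setoid φ)) := Fintype.ofFinite _
  rw [Nat.card_eq_fintype_card]
  rw [← Finset.sum_fiberwise (s := (Finset.univ : Finset G.Dart))
    (g := fun d => Quotient.mk (Equiv.Perm.SameCycle.setoid φ) d)]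
  have : ∀ q : Quotient (Equiv.Perm.SameCycle.setoid φ),
      ∑ d ∈ Finset.univ.filter (fun d : G.Dart =>
        Quotient.mk (Equiv.Perm.SameCycle.setoid φ) d = q), 1 / (len φ d : ℚ) = 1 := by
    intro q
    induction q using Quotient.inductionOn with
    | h d0 =>
      have h1 : ∀ d ∈ Finset.univ.filter (fun d : G.Dart =>
          Quotient.mk (Equiv.Perm.SameCycle.setoid φ) d =
            Quotient.mk (Equiv.Perm.SameCycle.setoid φ) d0), 1 / (len φ d : ℚ) = 1 / len φ d0 := by
        intro d hd
        rw [Finset.mem_filter] at hd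
        unfold len
        rw [hd.2]
      rw [Finset.sum_congr rfl h1, Finset.sum_const, nsmul_eq_mul]
      have h2 : (Finset.univ.filter (fun d : G.Dart =>
          Quotient.mk (Equiv.Perm.SameCycle.setoid φ) d =
            Quotient.mk (Equiv.Perm.SameCycle.setoid φ) d0)).card = len φ d0 := rfl
      rw [h2]
      have h3 : 0 < len φ d0 := by
        unfold len
        rw [Finset.card_pos]
        exact ⟨d0, by simp⟩
      have h4 : (len φ d0 : ℚ) ≠ 0 := by exact_mod_cast h3.ne'
      field_simp
  rw [Finset.sum_congr rfl (fun q _ => this q)]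
  simp

theorem le_len (d : G.Dart) (m : ℕ) (h : ∀ i j, i < j → j < m → (φ ^ i) d ≠ (φ ^ j) d) :
    m ≤ len φ d := by
  unfold len
  have h1 : ((Finset.range m).image (fun i => (φ ^ i) d)).card = m := by
    rw [Finset.card_image_of_injOn, Finset.card_range]
    intro i hi j hj hij
    simp only [Finset.coe_range, Set.mem_Iio] at hi hj
    by_contra hne
    rcases Nat.lt_or_gt_of_ne hne with hlt | hlt
    · exact h i j hlt hj hij
    · exact h j i hlt hi hij.symm
  rw [← h1]
  apply Finset.card_le_card
  intro e he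
  rw [Finset.mem_image] at he
  obtain ⟨i, _, rfl⟩ := he
  rw [Finset.mem_filter]
  refine ⟨Finset.mem_univ _, ?_⟩
  apply Quotient.sound
  exact (⟨-(i : ℤ), by simp⟩ : Equiv.Perm.SameCycle φ ((φ ^ i) d) d)

theorem len_ge (d : G.Dart) (m : ℕ) (h : ∀ j, 0 < j → j < m → (φ ^ j) d ≠ d) : m ≤ len φ d := by
  apply le_len
  intro i j hij hj h1
  apply h (j - i) (by omega) (by omega)
  have h2 : (φ ^ j) d = (φ ^ i) ((φ ^ (j - i)) d) := by
    rw [← Equiv.Perm.mul_apply, ← pow_add]
    congr 2
    omega
  rw [h2] at h1
  exact ((φ ^ i).injective h1).symm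

theorem step_ne (hf : ∀ d, (φ d).fst = d.snd) (d : G.Dart) : φ d ≠ d := by
  intro h
  have := hf d
  rw [h] at this
  exact d.adj.ne this

theorem step2_ne (hR : RS G (Nx φ)) (d : G.Dart) (hB : Big G d.fst) : φ (φ d) ≠ d := by
  obtain ⟨⟨a, b⟩, hab⟩ := d
  simp only at hab hB
  obtain ⟨c, h1⟩ := hR.tot hab
  have hbc := hR.adjr h1
  obtain ⟨e, h2⟩ := hR.tot hbc
  have hce := hR.adjr h2
  rw [nx_apply h1 hab hbc, nx_apply h2 hbc hce]
  intro h
  have e1 : c = a := congrArg (fun x : G.Dart => x.fst) h
  have e2 : e = b := congrArg (fun x : G.Dart => x.snd) h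
  subst e1
  subst e2
  have h3 := hB {c, e} (by simp) (by
    intro u hu w hw
    simp only [Finset.mem_insert, Finset.mem_singleton] at hu ⊢
    rcases hu with rfl | rfl
    · rcases nb2 hR h2 h2 hw with rfl | rfl <;> simp
    · rcases nb2 hR h1 h1 hw with rfl | rfl <;> simp)
  have := Finset.card_le_two (a := c) (b := e)
  omega

/-- contribution of a dart of a big component -/
theorem len_chi (hR : RS G (Nx φ)) (hf : ∀ d, (φ d).fst = d.snd) (d : G.Dart)
    (hB : Big G d.fst) : 1 / (len φ d : ℚ) ≤ 14 / 45 + chi φ d / 360 := by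
  have s1 : (φ ^ 1) d ≠ d := by rw [pow_one]; exact step_ne hf d
  have s2 : (φ ^ 2) d ≠ d := by
    rw [pow_two, Equiv.Perm.mul_apply]; exact step2_ne hR d hB
  have p3 : (φ ^ 3) d = φ (φ (φ d)) := by simp [pow_succ]
  have p4 : (φ ^ 4) d = φ (φ (φ (φ d))) := by simp [pow_succ]
  unfold chi
  split_ifs with h1 h2
  · have h3 : 3 ≤ len φ d := by
      apply len_ge
      intro j h0 hj
      interval_cases j
      · exact s1
      · exact s2
    have h4 : (3 : ℚ) ≤ len φ d := by exact_mod_cast h3
    have : 1 / (len φ d : ℚ) ≤ 1 / 3 := one_div_le_one_div_of_le (by norm_num) h4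
    refine this.trans (by norm_num)
  · have h3 : 4 ≤ len φ d := by
      apply len_ge
      intro j h0 hj
      interval_cases j
      · exact s1
      · exact s2
      · rw [p3]; exact h1
    have h4 : (4 : ℚ) ≤ len φ d := by exact_mod_cast h3
    have : 1 / (len φ d : ℚ) ≤ 1 / 4 := one_div_le_one_div_of_le (by norm_num) h4
    refine this.trans (by norm_num)
  · have h3 : 5 ≤ len φ d := by
      apply len_ge
      intro j h0 hj
      interval_cases j
      · exact s1
      · exact s2
      · rw [p3]; exact h1
      · rw [p4]; exact h2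
    have h4 : (5 : ℚ) ≤ len φ d := by exact_mod_cast h3
    have : 1 / (len φ d : ℚ) ≤ 1 / 5 := one_div_le_one_div_of_le (by norm_num) h4
    refine this.trans (by norm_num)

/-- darts of a component -/
noncomputable def SK (K : G.ConnectedComponent) : Finset G.Dart :=
  Finset.univ.filter (fun d : G.Dart => G.connectedComponentMk d.fst = K)

theorem mem_SK (K : G.ConnectedComponent) (d : G.Dart) :
    d ∈ SK K ↔ G.connectedComponentMk d.fst = K := by
  unfold SK; simp

theorem comp_adj {a b : V} (h : G.Adj a b) :
    G.connectedComponentMk a = G.connectedComponentMk b :=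
  SimpleGraph.ConnectedComponent.eq.2 h.reachable

theorem closed_reach {S : Finset V} (hS : ∀ x ∈ S, ∀ y, G.Adj x y → y ∈ S) {a b : V}
    (h : G.Reachable a b) (ha : a ∈ S) : b ∈ S := by
  obtain ⟨p⟩ := h
  induction p with
  | nil => exact ha
  | cons h _ ih => exact ih (hS _ ha _ h)

theorem comp_bound (hD : DomFree G) (hR : RS G (Nx φ)) (hf : ∀ d, (φ d).fst = d.snd)
    (K : G.ConnectedComponent) :
    ∑ d ∈ SK K, 1 / (len φ d : ℚ) ≤ 14 / 45 * (SK K).card + 2 * (if (SK K).Nonempty then 1 else 0) := by
  have clφ : ∀ d, φ d ∈ SK K ↔ d ∈ SK K := by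
    intro d
    rw [mem_SK, mem_SK, hf, ← comp_adj d.adj]
  have clS : ∀ d : G.Dart, d.symm ∈ SK K ↔ d ∈ SK K := by
    intro d
    rw [mem_SK, mem_SK]
    show G.connectedComponentMk d.snd = K ↔ _
    rw [← comp_adj d.adj]
  by_cases hB : ∀ d ∈ SK K, Big G d.fst
  · have h1 := chi_sum hR hD (SK K) clφ clS hB
    have h2 : ∑ d ∈ SK K, 1 / (len φ d : ℚ) ≤ ∑ d ∈ SK K, (14 / 45 + chi φ d / 360) :=
      Finset.sum_le_sum (fun d hd => len_chi hR hf d (hB d hd))
    rw [Finset.sum_add_distrib, Finset.sum_const, nsmul_eq_mul, ← Finset.sum_div] at h2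
    have h3 : (0 : ℚ) ≤ 2 * (if (SK K).Nonempty then 1 else 0) := by split_ifs <;> norm_num
    have h4 : (∑ d ∈ SK K, chi φ d) / 360 ≤ 0 := div_nonpos_of_nonpos_of_nonneg h1 (by norm_num)
    linarith
  · push Not at hB
    obtain ⟨d0, hd0, hB⟩ := hB
    rw [if_pos ⟨d0, hd0⟩]
    by_cases h2 : ∃ d ∈ SK K, φ (φ d) = d
    · -- the component is a single edge
      obtain ⟨d, hd, hdd⟩ := h2
      have h3 : SK K ⊆ {d, d.symm} := by
        obtain ⟨⟨a, b⟩, hab⟩ := d
        simp only at hab
        obtain ⟨c, h1⟩ := hR.tot hab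
        have hbc := hR.adjr h1
        obtain ⟨e, h2⟩ := hR.tot hbc
        have hce := hR.adjr h2
        rw [nx_apply h1 hab hbc, nx_apply h2 hbc hce] at hdd
        have e1 : c = a := congrArg (fun x : G.Dart => x.fst) hdd
        have e2 : e = b := congrArg (fun x : G.Dart => x.snd) hdd
        subst e1
        subst e2
        intro f hf'
        rw [mem_SK] at hf' hd
        have h3 : G.Reachable c f.fst := by
          rw [← hf'] at hd
          exact SimpleGraph.ConnectedComponent.eq.1 hd
        have cl : ∀ x ∈ ({c, e} : Finset V), ∀ y, G.Adj x y → y ∈ ({c, e} : Finset V) := by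
          intro u hu w hw
          simp only [Finset.mem_insert, Finset.mem_singleton] at hu ⊢
          rcases hu with rfl | rfl
          · rcases nb2 hR h2 h2 hw with rfl | rfl <;> simp
          · rcases nb2 hR h1 h1 hw with rfl | rfl <;> simp
        have h4 := closed_reach cl h3 (by simp)
        have h5 := cl _ h4 _ f.adj
        simp only [Finset.mem_insert, Finset.mem_singleton] at h4 h5 ⊢
        have h6 := f.adj.ne
        rcases h4 with h4 | h4 <;> rcases h5 with h5 | h5
        · exact absurd (h4.trans h5.symm) h6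
        · left; ext <;> simp [h4, h5]
        · right; ext <;> simp [h4, h5]
        · exact absurd (h4.trans h5.symm) h6
      have h4 : (SK K).card ≤ 2 := (Finset.card_le_card h3).trans Finset.card_le_two
      have h5 : ∑ d ∈ SK K, 1 / (len φ d : ℚ) ≤ ∑ d ∈ SK K, (1 : ℚ) := by
        apply Finset.sum_le_sum
        intro d _
        have : 1 ≤ len φ d := by
          apply len_ge
          intro j h0 hj
          omega
        have : (1 : ℚ) ≤ len φ d := by exact_mod_cast this
        rw [div_le_one (by linarith)]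
        exact this
      rw [Finset.sum_const, nsmul_eq_mul, mul_one] at h5
      have h6 : ((SK K).card : ℚ) ≤ 2 := by exact_mod_cast h4
      have h7 : (0 : ℚ) ≤ (SK K).card := by positivity
      linarith
    · push Not at h2
      unfold Big at hB
      push Not at hB
      obtain ⟨S, hS0, hS, hS6⟩ := hB
      have h3 : (SK K).card ≤ 20 := by
        have h4 : (SK K).image (fun d : G.Dart => (d.fst, d.snd)) ⊆ S.offDiag := by
          intro p hp
          rw [Finset.mem_image] at hp
          obtain ⟨d, hd, rfl⟩ := hp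
          rw [mem_SK] at hd hd0
          have h5 : G.Reachable d0.fst d.fst := by
            rw [← hd] at hd0
            exact SimpleGraph.ConnectedComponent.eq.1 hd0
          have h6 := closed_reach hS h5 hS0
          rw [Finset.mem_offDiag]
          exact ⟨h6, hS _ h6 _ d.adj, d.adj.ne⟩
        have h5 := Finset.card_le_card h4
        rw [Finset.card_image_of_injective, Finset.offDiag_card] at h5
        · have h6 : S.card ≤ 5 := by omega
          have h7 : S.card * S.card - S.card ≤ 20 := by
            interval_cases S.card <;> omega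
          omega
        · intro d e h
          ext <;> simp_all
      have h5 : ∑ d ∈ SK K, 1 / (len φ d : ℚ) ≤ ∑ d ∈ SK K, (1 / 3 : ℚ) := by
        apply Finset.sum_le_sum
        intro d hd
        have : 3 ≤ len φ d := by
          apply len_ge
          intro j h0 hj
          interval_cases j
          · rw [pow_one]; exact step_ne hf d
          · rw [pow_two, Equiv.Perm.mul_apply]; exact h2 d hd
        have h4 : (3 : ℚ) ≤ len φ d := by exact_mod_cast this
        exact one_div_le_one_div_of_le (by norm_num) h4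
      rw [Finset.sum_const, nsmul_eq_mul] at h5
      have h6 : ((SK K).card : ℚ) ≤ 20 := by exact_mod_cast h3
      linarith

end

/-- A planar graph without a domino has at most `45/17 n` edges. -/
theorem upper {V : Type} [Fintype V] (G : SimpleGraph V) (hP : IsPlanar G) (hF : theta.Free G) :
    17 * Nat.card G.edgeSet ≤ 45 * Nat.card V := by
  obtain ⟨σ, φ, h1, h2, h3, h4⟩ := hP
  have hD := domFree_of_free hF
  have hR := rs_of σ φ h1 h2 h3
  have hf : ∀ d, (φ d).fst = d.snd := by
    intro d
    rw [h3, h1]
    rfl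
  haveI : Fintype G.ConnectedComponent := Fintype.ofFinite _
  have h5 : ∑ d : G.Dart, 1 / (len φ d : ℚ) =
      ∑ K : G.ConnectedComponent, ∑ d ∈ SK K, 1 / (len φ d : ℚ) :=
    (Finset.sum_fiberwise (Finset.univ : Finset G.Dart)
      (fun d => G.connectedComponentMk d.fst) _).symm
  have h6 : (Fintype.card G.Dart : ℚ) = ∑ K : G.ConnectedComponent, ((SK K).card : ℚ) := by
    have := Finset.sum_fiberwise (Finset.univ : Finset G.Dart)
      (fun d => G.connectedComponentMk d.fst) (fun _ => (1 : ℚ))
    rw [Finset.sum_const, nsmul_eq_mul, mul_one] at this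
    rw [← Finset.card_univ, ← this]
    apply Finset.sum_congr rfl
    intro K _
    rw [Finset.sum_const, nsmul_eq_mul, mul_one]
    rfl
  have h7 : (Nat.card (Quotient (Equiv.Perm.SameCycle.setoid φ)) : ℚ) ≤
      14 / 45 * Fintype.card G.Dart +
        2 * ∑ K : G.ConnectedComponent, (if (SK K).Nonempty then (1 : ℚ) else 0) := by
    rw [card_faces, h5, h6, Finset.mul_sum, Finset.mul_sum, ← Finset.sum_add_distrib]
    exact Finset.sum_le_sum (fun K _ => comp_bound hD hR hf K)
  have h8 : (Fintype.card G.Dart : ℚ) = 2 * Nat.card G.edgeSet := by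
    rw [G.dart_card_eq_twice_card_edges, Nat.card_eq_fintype_card, ← Set.toFinset_card]
    push_cast
    congr 2
  -- isolated vertices
  have h9 : (Nat.card {v : V // ∀ w, ¬ G.Adj v w} : ℚ) +
      ∑ K : G.ConnectedComponent, (if (SK K).Nonempty then (1 : ℚ) else 0) ≤
        Nat.card G.ConnectedComponent := by
    rw [Nat.card_eq_fintype_card, Nat.card_eq_fintype_card, Finset.sum_ite, Finset.sum_const_zero,
      add_zero, Finset.sum_const, nsmul_eq_mul, mul_one]
    have h10 : Fintype.card {v : V // ∀ w, ¬ G.Adj v w} ≤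
        (Finset.univ.filter (fun K : G.ConnectedComponent => ¬ (SK K).Nonempty)).card := by
      rw [← Finset.card_univ]
      apply Finset.card_le_card_of_injOn (fun v => G.connectedComponentMk v.1)
      · intro v _
        simp only [Finset.coe_filter, Finset.mem_univ, true_and, Set.mem_setOf_eq]
        rintro ⟨d, hd⟩
        rw [mem_SK] at hd
        have h11 : G.Reachable v.1 d.fst := (SimpleGraph.ConnectedComponent.eq.1 hd).symm
        have h12 := closed_reach (S := {v.1}) (G := G) (by
          intro x hx y hxy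
          rw [Finset.mem_singleton] at hx
          subst hx
          exact absurd hxy (v.2 y)) h11 (by simp)
        rw [Finset.mem_singleton] at h12
        exact v.2 d.snd (h12 ▸ d.adj)
      · intro v _ w _ hvw
        have h11 : G.Reachable v.1 w.1 := SimpleGraph.ConnectedComponent.eq.1 hvw
        have h12 := closed_reach (S := {v.1}) (G := G) (by
          intro x hx y hxy
          rw [Finset.mem_singleton] at hx
          subst hx
          exact absurd hxy (v.2 y)) h11 (by simp)
        rw [Finset.mem_singleton] at h12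
        exact Subtype.ext h12.symm
    have h11 := Finset.card_filter_add_card_filter_not (s := (Finset.univ : Finset G.ConnectedComponent))
      (fun K => (SK K).Nonempty)
    rw [Finset.card_univ] at h11
    have h12 : Fintype.card {v : V // ∀ w, ¬ G.Adj v w} +
      (Finset.univ.filter (fun K : G.ConnectedComponent => (SK K).Nonempty)).card ≤
        Fintype.card G.ConnectedComponent := by omega
    exact_mod_cast h12
  have h10 : (Nat.card V : ℚ) + (Nat.card (Quotient (Equiv.Perm.SameCycle.setoid φ))
        + Nat.card {v : V // ∀ w, ¬ G.Adj v w})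
      = Nat.card G.edgeSet + 2 * Nat.card G.ConnectedComponent := by exact_mod_cast h4
  have h11 : (0 : ℚ) ≤ Nat.card {v : V // ∀ w, ¬ G.Adj v w} := by positivity
  have h12 : (17 * Nat.card G.edgeSet : ℚ) ≤ 45 * Nat.card V := by
    rw [h8] at h7
    linarith
  exact_mod_cast h12

end Pool.Agent.H47.PT
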